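import Pool.Agent.Lib.H43V.Defs

/-!
# MP_de3a64_co, chunk A: exchange for a family of sets closed under symmetric difference
-/

set_option autoImplicit false

namespace H43V

open Set

/-- the edges with one end in `K` and one end outside `K` -/
def cutSet {V E : Type*} (ends : E → Sym2 V) (K : Set V) : Set E :=
  {x | (∃ u ∈ ends x, u ∈ K) ∧ ∃ u ∈ ends x, u ∉ K}

theorem cutSet_symmDiff {V E : Type*} (ends : E → Sym2 V) (K L : Set V) :
    cutSet ends (symmDiff K L) = symmDiff (cutSet ends K) (cutSet ends L) := by
  ext x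
  have key : ∀ M : Set V, ∀ a b : V, ends x = s(a, b) →
      (x ∈ cutSet ends M ↔ ¬ (a ∈ M ↔ b ∈ M)) := by
    intro M a b hab
    unfold cutSet
    rw [Set.mem_ofPred_eq, hab]
    constructor
    · rintro ⟨⟨u, hu, hu1⟩, ⟨w, hw, hw1⟩⟩ h
      rw [Sym2.mem_iff] at hu hw
      rcases hu with rfl | rfl
      · rcases hw with rfl | rfl
        · exact hw1 hu1
        · exact hw1 (h.1 hu1)
      · rcases hw with rfl | rfl
        · exact hw1 (h.2 hu1)
        · exact hw1 hu1
    · intro h
      by_cases ha : a ∈ M
      · have hb : b ∉ M := fun hb => h ⟨fun _ => hb, fun _ => ha⟩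
        exact ⟨⟨a, Sym2.mem_mk_left a b, ha⟩, ⟨b, Sym2.mem_mk_right a b, hb⟩⟩
      · have hb : b ∈ M := by
          by_contra hb
          exact h ⟨fun h1 => absurd h1 ha, fun h1 => absurd h1 hb⟩
        exact ⟨⟨b, Sym2.mem_mk_right a b, hb⟩, ⟨a, Sym2.mem_mk_left a b, ha⟩⟩
  obtain ⟨a, b, hab⟩ : ∃ a b, ends x = s(a, b) := by
    induction h : ends x with
    | _ a b => exact ⟨a, b, rfl⟩
  have h1 := key (symmDiff K L) a b hab
  have h2 := key K a b hab
  have h3 := key L a b hab
  rw [Set.mem_symmDiff, Set.mem_symmDiff] at h1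
  rw [h1, Set.mem_symmDiff, h2, h3]
  by_cases ha : a ∈ K <;> by_cases hb : b ∈ K <;> by_cases ha' : a ∈ L <;> by_cases hb' : b ∈ L <;>
    simp [ha, hb, ha', hb']

private theorem aux_aug {E : Type*} [Finite E] (F : Set (Set E))
    (hF : ∀ A ∈ F, ∀ B ∈ F, symmDiff A B ∈ F) (J : Set E) (hJ : ∀ A ∈ F, A ⊆ J → A = ∅) :
    ∀ (n : ℕ) (I : Set E), (∀ A ∈ F, A ⊆ I → A = ∅) → I.ncard < J.ncard → (J \ I).ncard = n →
      (∀ x ∈ J, x ∉ I → ∃ D ∈ F, x ∈ D ∧ D ⊆ insert x I) → False := by
  intro n
  induction n with
  | zero =>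
    intro I _ hc hn _
    rw [Set.ncard_eq_zero (Set.toFinite _), Set.sdiff_eq_empty] at hn
    have := Set.ncard_le_ncard hn (Set.toFinite I)
    omega
  | succ n ih =>
    intro I hI hc hn hcon
    have hne : (J \ I).Nonempty := by
      rw [← Set.ncard_pos (Set.toFinite _)]
      omega
    obtain ⟨x, hxJ, hxI⟩ := hne
    obtain ⟨D, hD, hxD, hDI⟩ := hcon x hxJ hxI
    have hDJ : ¬ D ⊆ J := by
      intro h
      have h1 := hJ D hD h
      rw [h1] at hxD
      exact hxD
    obtain ⟨y, hyD, hyJ⟩ := Set.not_subset.1 hDJ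
    have hyx : y ≠ x := by
      rintro rfl
      exact hyJ hxJ
    have hyI : y ∈ I := by
      rcases Set.mem_insert_iff.1 (hDI hyD) with h | h
      · exact absurd h hyx
      · exact h
    refine ih (insert x (I \ {y})) ?_ ?_ ?_ ?_
    · intro A hA hAI
      by_cases hxA : x ∈ A
      · exfalso
        have h1 : symmDiff A D ⊆ I := by
          intro z hz
          rw [Set.mem_symmDiff] at hz
          have hzx : z ≠ x := by
            rintro rfl
            rcases hz with hz | hz
            · exact hz.2 hxD
            · exact hz.2 hxA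
          rcases hz with hz | hz
          · rcases Set.mem_insert_iff.1 (hAI hz.1) with h | h
            · exact absurd h hzx
            · exact h.1
          · rcases Set.mem_insert_iff.1 (hDI hz.1) with h | h
            · exact absurd h hzx
            · exact h
        have h2 := hI _ (hF A hA D hD) h1
        have h3 : y ∈ symmDiff A D := by
          rw [Set.mem_symmDiff]
          right
          refine ⟨hyD, fun hyA => ?_⟩
          rcases Set.mem_insert_iff.1 (hAI hyA) with h | h
          · exact hyx h
          · exact h.2 rfl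
        rw [h2] at h3
        exact h3
      · apply hI A hA
        intro z hz
        rcases Set.mem_insert_iff.1 (hAI hz) with h | h
        · rw [h] at hz
          exact absurd hz hxA
        · exact h.1
    · have h1 : (insert x (I \ {y})).ncard = I.ncard := by
        rw [Set.ncard_insert_of_notMem (fun h => hxI h.1) (Set.toFinite _),
          Set.ncard_sdiff_singleton_add_one hyI (Set.toFinite _)]
      rw [h1]
      exact hc
    · have h1 : J \ insert x (I \ {y}) = (J \ I) \ {x} := by
        ext z
        simp only [Set.mem_sdiff, Set.mem_insert_iff, Set.mem_singleton_iff, not_or, not_and, not_not]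
        constructor
        · rintro ⟨hz, hzx, hzy⟩
          refine ⟨⟨hz, fun hzI => ?_⟩, hzx⟩
          rw [hzy hzI] at hz
          exact hyJ hz
        · rintro ⟨⟨hz, hzI⟩, hzx⟩
          exact ⟨hz, hzx, fun h => absurd h hzI⟩
      rw [h1]
      have h2 := Set.ncard_sdiff_singleton_add_one (s := J \ I) (a := x) ⟨hxJ, hxI⟩ (Set.toFinite _)
      omega
    · intro z hzJ hzI'
      have hzx : z ≠ x := by
        rintro rfl
        exact hzI' (Set.mem_insert _ _)
      have hzy : z ≠ y := by
        rintro rfl
        exact hyJ hzJ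
      have hzI : z ∉ I := by
        intro h
        exact hzI' (Set.mem_insert_of_mem _ ⟨h, hzy⟩)
      obtain ⟨D', hD', hzD', hDI'⟩ := hcon z hzJ hzI
      by_cases hyD' : y ∈ D'
      · refine ⟨symmDiff D' D, hF _ hD' _ hD, ?_, ?_⟩
        · rw [Set.mem_symmDiff]
          left
          refine ⟨hzD', fun h => ?_⟩
          rcases Set.mem_insert_iff.1 (hDI h) with h1 | h1
          · exact hzx h1
          · exact hzI h1
        · intro w hw
          have hwy : w ≠ y := by
            rintro rfl
            rw [Set.mem_symmDiff] at hw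
            rcases hw with h | h
            · exact h.2 hyD
            · exact h.2 hyD'
          rw [Set.mem_symmDiff] at hw
          rcases hw with h | h
          · rcases Set.mem_insert_iff.1 (hDI' h.1) with h1 | h1
            · exact Or.inl h1
            · exact Or.inr (Set.mem_insert_of_mem _ ⟨h1, hwy⟩)
          · rcases Set.mem_insert_iff.1 (hDI h.1) with h1 | h1
            · exact Or.inr (Or.inl h1)
            · exact Or.inr (Set.mem_insert_of_mem _ ⟨h1, hwy⟩)
      · refine ⟨D', hD', hzD', ?_⟩
        intro w hw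
        rcases Set.mem_insert_iff.1 (hDI' hw) with h1 | h1
        · exact Or.inl h1
        · refine Or.inr (Set.mem_insert_of_mem _ ⟨h1, ?_⟩)
          rintro rfl
          exact hyD' hw

/-- Steinitz exchange. `F`: a family of sets closed under symmetric difference; a set `I` is
independent when no nonempty member of `F` is contained in `I`. -/
theorem binary_aug {E : Type*} [Finite E] (F : Set (Set E)) (hF : ∀ A ∈ F, ∀ B ∈ F, symmDiff A B ∈ F)
    {I J : Set E} (hI : ∀ A ∈ F, A ⊆ I → A = ∅) (hJ : ∀ A ∈ F, A ⊆ J → A = ∅)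
    (hc : I.ncard < J.ncard) : ∃ x ∈ J, x ∉ I ∧ ∀ A ∈ F, A ⊆ insert x I → A = ∅ := by
  by_contra hcon
  push Not at hcon
  refine aux_aug F hF J hJ _ I hI hc rfl ?_
  intro x hxJ hxI
  obtain ⟨A, hA, hAI, hne⟩ := hcon x hxJ hxI
  refine ⟨A, hA, ?_, hAI⟩
  by_contra hxA
  have hne' : A ≠ ∅ := Set.nonempty_iff_ne_empty.1 (by simpa using hne)
  apply hne'
  apply hI A hA
  intro z hz
  rcases Set.mem_insert_iff.1 (hAI hz) with h | h
  · rw [h] at hz
    exact absurd hz hxA
  · exact h

end H43V
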