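import Pool.Agent.Lib.H43V.Defs

/-!
# MP_de3a64_co, chunk B: no large uniform minor in the binary part (Plotkin bound)
-/

set_option autoImplicit false

namespace H43V

open Set

/-- The form of `binary_no` with the weaker hypothesis `2 * t + 2 ≤ k` (no Plotkin bound is needed: two fundamental
circuits of a maximal independent set suffice). `F`: a family of sets closed under symmetric difference; `ind I`: no nonempty member of `F` is
contained in `I`. -/
theorem B_binary_no {E : Type*} [Finite E] (F : Set (Set E)) (hF : ∀ A ∈ F, ∀ B ∈ F, symmDiff A B ∈ F)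
    (ind : Set E → Prop) (hind : ∀ I, ind I ↔ ∀ A ∈ F, A ⊆ I → A = ∅) (S : Finset E) (B : Set E)
    (hSB : ∀ x ∈ S, x ∉ B) (k t c : ℕ) (hk : 2 * t + 2 ≤ k) (hS : S.card + c = 2 * k)
    (hsmall : ∀ J : Finset E, J ⊆ S → J.card ≤ k → ind ((J : Set E) ∪ B))
    (hbig : ∀ J : Finset E, J ⊆ S → ind ((J : Set E) ∪ B) → J.card + c ≤ k + t) : False := by
  classical
  have key : ∀ A ∈ F, A ≠ ∅ → A ⊆ (S : Set E) ∪ B → k + 1 ≤ (S.filter (fun x => x ∈ A)).card := by
    intro A hA hne hsub
    by_contra hcon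
    have h1 : (S.filter (fun x => x ∈ A)).card ≤ k := by omega
    have h2 := hsmall _ (Finset.filter_subset _ _) h1
    refine hne ((hind _).1 h2 A hA fun x hx => ?_)
    rcases hsub hx with h3 | h3
    · exact Or.inl (by
        rw [Finset.mem_coe, Finset.mem_filter]
        exact ⟨h3, hx⟩)
    · exact Or.inr h3
  -- a largest independent set
  have hne : (S.powerset.filter (fun J : Finset E => ind ((J : Set E) ∪ B))).Nonempty := by
    refine ⟨∅, ?_⟩
    rw [Finset.mem_filter, Finset.mem_powerset]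
    exact ⟨Finset.empty_subset _, hsmall ∅ (Finset.empty_subset _) (by simp)⟩
  obtain ⟨J, hJ, hmax⟩ := Finset.exists_max_image _ Finset.card hne
  rw [Finset.mem_filter, Finset.mem_powerset] at hJ
  obtain ⟨hJS, hJi⟩ := hJ
  have hJc := hbig J hJS hJi
  have hex : ∀ x ∈ S \ J, ∃ A ∈ F, x ∈ A ∧ A ⊆ insert x ((J : Set E) ∪ B) := by
    intro x hx
    rw [Finset.mem_sdiff] at hx
    have h1 : ¬ ind (((insert x J : Finset E) : Set E) ∪ B) := by
      intro h2
      have h3 := hmax (insert x J) (by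
        rw [Finset.mem_filter, Finset.mem_powerset]
        refine ⟨fun z hz => ?_, h2⟩
        rcases Finset.mem_insert.1 hz with h4 | h4
        · rw [h4]
          exact hx.1
        · exact hJS h4)
      rw [Finset.card_insert_of_notMem hx.2] at h3
      omega
    rw [hind] at h1
    push Not at h1
    obtain ⟨A, hA, hsub, hA0⟩ := h1
    rw [Finset.coe_insert, Set.insert_union] at hsub
    refine ⟨A, hA, ?_, hsub⟩
    by_contra hxA
    refine (Set.nonempty_iff_ne_empty.1 hA0) ((hind _).1 hJi A hA fun z hz => ?_)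
    rcases hsub hz with h4 | h4
    · exact absurd (h4 ▸ hz) hxA
    · exact h4
  have hcard : 1 < (S \ J).card := by
    rw [Finset.card_sdiff_of_subset hJS]
    omega
  obtain ⟨x, hx, y, hy, hxy⟩ := Finset.one_lt_card.1 hcard
  obtain ⟨Ax, hAx, hxA, hAxs⟩ := hex x hx
  obtain ⟨Ay, hAy, hyA, hAys⟩ := hex y hy
  rw [Finset.mem_sdiff] at hx hy
  have hsub : ∀ (A : Set E) (z : E), z ∈ S → A ⊆ insert z ((J : Set E) ∪ B) → A ⊆ (S : Set E) ∪ B := by
    intro A z hz hA w hw
    rcases hA hw with h1 | h1 | h1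
    · rw [h1]
      exact Or.inl hz
    · exact Or.inl (hJS h1)
    · exact Or.inr h1
  have hmiss : ∀ (A : Set E) (z : E), A ∈ F → z ∈ A → z ∈ S → A ⊆ insert z ((J : Set E) ∪ B) →
      (J.filter (fun w => w ∉ A)).card ≤ t := by
    intro A z hA hzA hz hAs
    have h1 := key A hA (Set.nonempty_iff_ne_empty.1 ⟨z, hzA⟩) (hsub A z hz hAs)
    have h2 : S.filter (fun w => w ∈ A) ⊆ insert z (J.filter (fun w => w ∈ A)) := by
      intro w hw
      rw [Finset.mem_filter] at hw
      rw [Finset.mem_insert, Finset.mem_filter]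
      rcases hAs hw.2 with h3 | h3 | h3
      · exact Or.inl h3
      · exact Or.inr ⟨h3, hw.2⟩
      · exact absurd h3 (hSB w hw.1)
    have h3 := (Finset.card_le_card h2).trans (Finset.card_insert_le _ _)
    have h4 := Finset.card_filter_add_card_filter_not (s := J) (fun w => w ∈ A)
    omega
  have m1 := hmiss Ax x hAx hxA hx.1 hAxs
  have m2 := hmiss Ay y hAy hyA hy.1 hAys
  have hxAy : x ∉ Ay := by
    intro h
    rcases hAys h with h1 | h1 | h1
    · exact hxy h1
    · exact hx.2 h1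
    · exact hSB x hx.1 h1
  have hD := hF Ax hAx Ay hAy
  have hxD : x ∈ symmDiff Ax Ay := Or.inl ⟨hxA, hxAy⟩
  have hDs : symmDiff Ax Ay ⊆ (S : Set E) ∪ B := by
    intro w hw
    rcases hw with h1 | h1
    · exact hsub Ax x hx.1 hAxs h1.1
    · exact hsub Ay y hy.1 hAys h1.1
  have h1 := key _ hD (Set.nonempty_iff_ne_empty.1 ⟨x, hxD⟩) hDs
  have h2 : S.filter (fun w => w ∈ symmDiff Ax Ay) ⊆
      insert x (insert y (J.filter (fun w => w ∉ Ax) ∪ J.filter (fun w => w ∉ Ay))) := by
    intro w hw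
    rw [Finset.mem_filter] at hw
    rw [Finset.mem_insert, Finset.mem_insert, Finset.mem_union, Finset.mem_filter, Finset.mem_filter]
    rcases hw.2 with h3 | h3
    · rcases hAxs h3.1 with h4 | h4 | h4
      · exact Or.inl h4
      · exact Or.inr (Or.inr (Or.inr ⟨h4, h3.2⟩))
      · exact absurd h4 (hSB w hw.1)
    · rcases hAys h3.1 with h4 | h4 | h4
      · exact Or.inr (Or.inl h4)
      · exact Or.inr (Or.inr (Or.inl ⟨h4, h3.2⟩))
      · exact absurd h4 (hSB w hw.1)
  have h3 := Finset.card_le_card h2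
  have h4 := Finset.card_insert_le x (insert y (J.filter (fun w => w ∉ Ax) ∪ J.filter (fun w => w ∉ Ay)))
  have h5 := Finset.card_insert_le y (J.filter (fun w => w ∉ Ax) ∪ J.filter (fun w => w ∉ Ay))
  have h6 := Finset.card_union_le (J.filter (fun w => w ∉ Ax)) (J.filter (fun w => w ∉ Ay))
  omega

/-- `F`: a family of sets closed under symmetric difference; `ind I`: no nonempty member of `F` is
contained in `I`. -/
theorem binary_no {E : Type*} [Finite E] (F : Set (Set E)) (hF : ∀ A ∈ F, ∀ B ∈ F, symmDiff A B ∈ F)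
    (ind : Set E → Prop) (hind : ∀ I, ind I ↔ ∀ A ∈ F, A ⊆ I → A = ∅) (S : Finset E) (B : Set E)
    (hSB : ∀ x ∈ S, x ∉ B) (k t c : ℕ) (hk : 4 * t + 4 ≤ k) (hS : S.card + c = 2 * k)
    (hsmall : ∀ J : Finset E, J ⊆ S → J.card ≤ k → ind ((J : Set E) ∪ B))
    (hbig : ∀ J : Finset E, J ⊆ S → ind ((J : Set E) ∪ B) → J.card + c ≤ k + t) : False := by
  exact B_binary_no F hF ind hind S B hSB k t c (by omega) hS hsmall hbig

end H43V
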