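import Pool.Agent.Lib.H43V.Defs2

/-!
# MP_de3a64_co: no large uniform minor in the cographic part, `t + 3 ≤ k`
-/

set_option autoImplicit false

namespace H43V

open Set

theorem four_colors : ∀ A : Finset (Bool × Bool × Bool),
    (∃ b c, (true, b, c) ∈ A ∧ (false, b, c) ∈ A) →
    (∃ a c, (a, true, c) ∈ A ∧ (a, false, c) ∈ A) →
    (∃ a b, (a, b, true) ∈ A ∧ (a, b, false) ∈ A) → 4 ≤ A.card := by
  decide +kernel

theorem bond_no {V E : Type*} [Finite E] (ends : E → Sym2 V) (S : Finset E) (B : Set E)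
    (hSB : ∀ x ∈ S, x ∉ B) (k t c : ℕ) (hk : t + 3 ≤ k) (hS : S.card + c = 2 * k)
    (hsmall : ∀ J : Finset E, J ⊆ S → J.card ≤ k → BondIndep ends ((J : Set E) ∪ B))
    (hbig : ∀ J : Finset E, J ⊆ S → BondIndep ends ((J : Set E) ∪ B) → J.card + c ≤ k + t) :
    False := by
  classical
  have key : ∀ K : Set V, cutSet ends K ≠ ∅ → cutSet ends K ⊆ (S : Set E) ∪ B →
      k + 1 ≤ (S.filter (fun x => x ∈ cutSet ends K)).card := by
    intro K hne hsub
    by_contra hcon
    have h1 : (S.filter (fun x => x ∈ cutSet ends K)).card ≤ k := by omega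
    refine hne (hsmall _ (Finset.filter_subset _ _) h1 K fun x hx => ?_)
    rcases hsub hx with h3 | h3
    · exact Or.inl (by
        rw [Finset.mem_coe, Finset.mem_filter]
        exact ⟨h3, hx⟩)
    · exact Or.inr h3
  -- a largest independent set
  have hne : (S.powerset.filter (fun J : Finset E => BondIndep ends ((J : Set E) ∪ B))).Nonempty := by
    refine ⟨∅, ?_⟩
    rw [Finset.mem_filter, Finset.mem_powerset]
    exact ⟨Finset.empty_subset _, hsmall ∅ (Finset.empty_subset _) (by simp)⟩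
  obtain ⟨J, hJ, hmax⟩ := Finset.exists_max_image _ Finset.card hne
  rw [Finset.mem_filter, Finset.mem_powerset] at hJ
  obtain ⟨hJS, hJi⟩ := hJ
  have hJc := hbig J hJS hJi
  have hex : ∀ x ∈ S \ J, ∃ K : Set V, x ∈ cutSet ends K ∧
      cutSet ends K ⊆ insert x ((J : Set E) ∪ B) := by
    intro x hx
    rw [Finset.mem_sdiff] at hx
    have h1 : ¬ BondIndep ends (((insert x J : Finset E) : Set E) ∪ B) := by
      intro h2
      have h3 := hmax (insert x J) (by
        rw [Finset.mem_filter, Finset.mem_powerset]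
        exact ⟨Finset.insert_subset hx.1 hJS, h2⟩)
      rw [Finset.card_insert_of_notMem hx.2] at h3
      omega
    unfold BondIndep at h1
    push Not at h1
    obtain ⟨K, hsub, hA0⟩ := h1
    rw [Finset.coe_insert, Set.insert_union] at hsub
    refine ⟨K, ?_, hsub⟩
    by_contra hxA
    refine (Set.nonempty_iff_ne_empty.1 hA0) (hJi K fun z hz => ?_)
    rcases hsub hz with h4 | h4
    · exact absurd (h4 ▸ hz) hxA
    · exact h4
  have hcard : 2 < (S \ J).card := by
    rw [Finset.card_sdiff_of_subset hJS]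
    omega
  obtain ⟨x, hx, y, hy, z, hz, hxy, hxz, hyz⟩ := Finset.two_lt_card.1 hcard
  obtain ⟨K₁, hK₁, hK₁s⟩ := hex x hx
  obtain ⟨K₂, hK₂, hK₂s⟩ := hex y hy
  obtain ⟨K₃, hK₃, hK₃s⟩ := hex z hz
  have hout : ∀ (a b : E) (K : Set V), a ∈ S \ J → a ≠ b →
      cutSet ends K ⊆ insert b ((J : Set E) ∪ B) → a ∉ cutSet ends K := by
    intro a b K ha hab hK haK
    rw [Finset.mem_sdiff] at ha
    rcases hK haK with h | h | h
    · exact hab h
    · exact ha.2 h
    · exact hSB a ha.1 h
  have hin : ∀ (b : E) (K : Set V), b ∈ S \ J → cutSet ends K ⊆ insert b ((J : Set E) ∪ B) →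
      cutSet ends K ⊆ (S : Set E) ∪ B := by
    intro b K hb hK w hw
    rw [Finset.mem_sdiff] at hb
    rcases hK hw with h | h | h
    · rw [h]
      exact Or.inl hb.1
    · exact Or.inl (hJS h)
    · exact Or.inr h
  -- colours
  let col : V → Bool × Bool × Bool := fun v => (decide (v ∈ K₁), decide (v ∈ K₂), decide (v ∈ K₃))
  let A : Finset (Bool × Bool × Bool) :=
    Finset.univ.filter (fun ε => cutSet ends {v | col v = ε} ≠ ∅)
  have hcut : ∀ ε, cutSet ends {v | col v = ε} ⊆ (S : Set E) ∪ B := by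
    intro ε s hs
    obtain ⟨⟨u, hu, hu2⟩, ⟨v, hv, hv2⟩⟩ := hs
    have hu3 : col u = ε := hu2
    have hv3 : ¬ col v = ε := hv2
    have hne2 : col u ≠ col v := fun h => hv3 (h ▸ hu3)
    have hcase : ¬ ((u ∈ K₁ ↔ v ∈ K₁) ∧ (u ∈ K₂ ↔ v ∈ K₂) ∧ (u ∈ K₃ ↔ v ∈ K₃)) := by
      rintro ⟨h1, h2, h3⟩
      apply hne2
      simp only [col, h1, h2, h3]
    have hmem : ∀ K : Set V, ¬ (u ∈ K ↔ v ∈ K) → s ∈ cutSet ends K := by
      intro K h
      by_cases huK : u ∈ K
      · exact ⟨⟨u, hu, huK⟩, ⟨v, hv, fun hvK => h ⟨fun _ => hvK, fun _ => huK⟩⟩⟩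
      · refine ⟨⟨v, hv, ?_⟩, ⟨u, hu, huK⟩⟩
        by_contra hvK
        exact h ⟨fun h' => (huK h').elim, fun h' => (hvK h').elim⟩
    by_cases h1 : u ∈ K₁ ↔ v ∈ K₁
    · by_cases h2 : u ∈ K₂ ↔ v ∈ K₂
      · have h3 : ¬ (u ∈ K₃ ↔ v ∈ K₃) := fun h3 => hcase ⟨h1, h2, h3⟩
        exact hin z K₃ hz hK₃s (hmem K₃ h3)
      · exact hin y K₂ hy hK₂s (hmem K₂ h2)
    · exact hin x K₁ hx hK₁s (hmem K₁ h1)
  -- at most three active colours
  have hA3 : A.card ≤ 3 := by
    have h1 : A.card * (k + 1) ≤ ∑ ε ∈ A, (S.filter (fun s => s ∈ cutSet ends {v | col v = ε})).card := by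
      have := Finset.card_nsmul_le_sum A
        (fun ε => (S.filter (fun s => s ∈ cutSet ends {v | col v = ε})).card) (k + 1) (by
          intro ε hε
          exact key _ (Finset.mem_filter.1 hε).2 (hcut ε))
      rwa [smul_eq_mul] at this
    have h2 : ∑ ε ∈ A, (S.filter (fun s => s ∈ cutSet ends {v | col v = ε})).card =
        ∑ s ∈ S, (A.filter (fun ε => s ∈ cutSet ends {v | col v = ε})).card :=
      Finset.sum_card_bipartiteAbove_eq_sum_card_bipartiteBelow
        (fun ε s => s ∈ cutSet ends {v | col v = ε})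
    have h3 := Finset.sum_le_card_nsmul S
      (fun s => (A.filter (fun ε => s ∈ cutSet ends {v | col v = ε})).card) 2 (by
        intro s _
        have h4 : A.filter (fun ε => s ∈ cutSet ends {v | col v = ε}) ⊆
            (ends s).toFinset.image col := by
          intro ε hε
          obtain ⟨⟨u, hu, hu2⟩, -⟩ := (Finset.mem_filter.1 hε).2
          exact Finset.mem_image.2 ⟨u, Sym2.mem_toFinset.2 hu, hu2⟩
        refine (Finset.card_le_card h4).trans (Finset.card_image_le.trans ?_)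
        rw [Sym2.card_toFinset]
        split_ifs <;> omega)
    rw [smul_eq_mul] at h3
    rw [h2] at h1
    have h4 : A.card * (k + 1) ≤ 4 * k := by omega
    by_contra hcon
    have h5 : 4 * (k + 1) ≤ A.card * (k + 1) := Nat.mul_le_mul_right _ (by omega)
    omega
  -- active pairs
  have hpair : ∀ (s : E) (K : Set V), s ∈ cutSet ends K →
      ∃ u v : V, u ∈ K ∧ v ∉ K ∧ (∀ K' : Set V, s ∉ cutSet ends K' → (u ∈ K' ↔ v ∈ K')) ∧
        (col u ≠ col v → col u ∈ A ∧ col v ∈ A) := by
    rintro s K ⟨⟨u, hu, huK⟩, ⟨v, hv, hvK⟩⟩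
    refine ⟨u, v, huK, hvK, ?_, ?_⟩
    · intro K' hK'
      constructor
      · intro h
        by_contra h'
        exact hK' ⟨⟨u, hu, h⟩, ⟨v, hv, h'⟩⟩
      · intro h
        by_contra h'
        exact hK' ⟨⟨v, hv, h⟩, ⟨u, hu, h'⟩⟩
    · intro hne2
      constructor
      · refine Finset.mem_filter.2 ⟨Finset.mem_univ _, ?_⟩
        rw [← Set.nonempty_iff_ne_empty]
        exact ⟨s, ⟨u, hu, rfl⟩, ⟨v, hv, fun h => hne2 h.symm⟩⟩
      · refine Finset.mem_filter.2 ⟨Finset.mem_univ _, ?_⟩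
        rw [← Set.nonempty_iff_ne_empty]
        exact ⟨s, ⟨v, hv, rfl⟩, ⟨u, hu, fun h => hne2 h⟩⟩
  have h4 := four_colors A ?_ ?_ ?_
  · omega
  · obtain ⟨u, v, hu, hv, h, hA⟩ := hpair x K₁ hK₁
    have e2 := h K₂ (hout x y K₂ hx hxy hK₂s)
    have e3 := h K₃ (hout x z K₃ hx hxz hK₃s)
    have hc : col u ≠ col v := by
      intro h'
      have := congrArg Prod.fst h'
      simp [col, hu, hv] at this
    have := hA hc
    refine ⟨decide (v ∈ K₂), decide (v ∈ K₃), ?_, ?_⟩
    · have h5 : col u = (true, decide (v ∈ K₂), decide (v ∈ K₃)) := by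
        simp only [col, e2, e3, hu, decide_true]
      rw [← h5]
      exact this.1
    · have h5 : col v = (false, decide (v ∈ K₂), decide (v ∈ K₃)) := by
        simp only [col, hv, decide_false]
      rw [← h5]
      exact this.2
  · obtain ⟨u, v, hu, hv, h, hA⟩ := hpair y K₂ hK₂
    have e2 := h K₁ (hout y x K₁ hy hxy.symm hK₁s)
    have e3 := h K₃ (hout y z K₃ hy hyz hK₃s)
    have hc : col u ≠ col v := by
      intro h'
      have := congrArg (fun p => p.2.1) h'
      simp [col, hu, hv] at this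
    have := hA hc
    refine ⟨decide (v ∈ K₁), decide (v ∈ K₃), ?_, ?_⟩
    · have h5 : col u = (decide (v ∈ K₁), true, decide (v ∈ K₃)) := by
        simp only [col, e2, e3, hu, decide_true]
      rw [← h5]
      exact this.1
    · have h5 : col v = (decide (v ∈ K₁), false, decide (v ∈ K₃)) := by
        simp only [col, hv, decide_false]
      rw [← h5]
      exact this.2
  · obtain ⟨u, v, hu, hv, h, hA⟩ := hpair z K₃ hK₃
    have e2 := h K₁ (hout z x K₁ hz hxz.symm hK₁s)
    have e3 := h K₂ (hout z y K₂ hz hyz.symm hK₂s)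
    have hc : col u ≠ col v := by
      intro h'
      have := congrArg (fun p => p.2.2) h'
      simp [col, hu, hv] at this
    have := hA hc
    refine ⟨decide (v ∈ K₁), decide (v ∈ K₂), ?_, ?_⟩
    · have h5 : col u = (decide (v ∈ K₁), decide (v ∈ K₂), true) := by
        simp only [col, e2, e3, hu, decide_true]
      rw [← h5]
      exact this.1
    · have h5 : col v = (decide (v ∈ K₁), decide (v ∈ K₂), false) := by
        simp only [col, hv, decide_false]
      rw [← h5]
      exact this.2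

end H43V
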