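import Pool.Agent.Lib.H43V.Defs

/-!
# MP_de3a64_co, chunk C: no large uniform minor in the bicircular part
-/

set_option autoImplicit false

namespace H43V

open Set

/-- Hall's theorem with deficiency. -/
theorem deficiency {V E : Type*} [DecidableEq V] (e : E → Finset V) (S : Finset E) (r : ℕ)
    (h : ∀ J : Finset E, J ⊆ S → HI e (J : Set E) → J.card ≤ r) (hr : r < S.card) :
    ∃ Y : Finset E, Y ⊆ S ∧ (Y.biUnion e).card + (S.card - Y.card) ≤ r := by
  classical
  by_contra hcon
  push Not at hcon
  set d := S.card - r - 1 with hd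
  let t : S → Finset (V ⊕ Fin d) := fun x => (e x.1).disjSum Finset.univ
  have hHall : ∀ s : Finset S, s.card ≤ (s.biUnion t).card := by
    intro s
    rcases s.eq_empty_or_nonempty with hs | hs
    · simp [hs]
    · have h1 : s.biUnion t = ((s.map (Function.Embedding.subtype _)).biUnion e).disjSum
          (Finset.univ : Finset (Fin d)) := by
        ext y
        simp only [Finset.mem_biUnion, t]
        rcases y with y | y
        · simp
        · obtain ⟨x, hx⟩ := hs
          simp only [Finset.inr_mem_disjSum, Finset.mem_univ, and_true, iff_true]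
          exact ⟨x, hx⟩
      rw [h1, Finset.card_disjSum, Finset.card_univ, Fintype.card_fin]
      have h2 : s.map (Function.Embedding.subtype _) ⊆ S := by
        intro x hx
        simp only [Finset.mem_map, Function.Embedding.subtype_apply] at hx
        obtain ⟨y, -, rfl⟩ := hx
        exact y.2
      have h3 := hcon _ h2
      have h4 := Finset.card_le_card h2
      rw [Finset.card_map] at h3 h4
      omega
  obtain ⟨f, hf1, hf2⟩ := (Finset.all_card_le_biUnion_card_iff_exists_injective _).1 hHall
  set J : Finset S := Finset.univ.filter (fun x => (f x).isLeft = true) with hJ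
  have hJc : S.card ≤ J.card + d := by
    have h1 : (Finset.univ : Finset S).card = J.card +
        (Finset.univ.filter (fun x : S => ¬ (f x).isLeft = true)).card := by
      rw [hJ, Finset.card_filter_add_card_filter_not]
    rw [Finset.card_univ, Fintype.card_coe] at h1
    have h2 : (Finset.univ.filter (fun x : S => ¬ (f x).isLeft = true)).card ≤ d := by
      have h3 : ((Finset.univ.filter (fun x : S => ¬ (f x).isLeft = true)).image f) ⊆
          (Finset.univ : Finset (Fin d)).map Function.Embedding.inr := by
        intro y hy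
        obtain ⟨x, hx, rfl⟩ := Finset.mem_image.1 hy
        have h4 := (Finset.mem_filter.1 hx).2
        rcases hfx : f x with v | i
        · rw [hfx] at h4
          simp at h4
        · simp
      have h5 := Finset.card_le_card h3
      rw [Finset.card_image_of_injective _ hf1, Finset.card_map, Finset.card_univ,
        Fintype.card_fin] at h5
      exact h5
    omega
  have hJpos : 0 < J.card := by omega
  obtain ⟨x0, hx0⟩ := Finset.card_pos.1 hJpos
  have hx0' := (Finset.mem_filter.1 hx0).2
  have hv0 : ∃ v0 : V, f x0 = Sum.inl v0 := by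
    rcases hfx : f x0 with v | i
    · exact ⟨v, rfl⟩
    · rw [hfx] at hx0'
      simp at hx0'
  obtain ⟨v0, hv0⟩ := hv0
  have hHI : HI e ((J.map (Function.Embedding.subtype _) : Finset E) : Set E) := by
    refine ⟨fun x => if hx : x ∈ S then (f ⟨x, hx⟩).elim id (fun _ => v0) else v0, ?_, ?_⟩
    · intro x hx
      simp only [Finset.coe_map, Function.Embedding.subtype_apply, Set.mem_image,
        Finset.mem_coe] at hx
      obtain ⟨y, hy, rfl⟩ := hx
      have h1 := (Finset.mem_filter.1 hy).2
      have h2 := hf2 y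
      simp only [y.2, dite_true, Subtype.coe_eta]
      rcases hfy : f y with v | i
      · rw [hfy] at h2
        simpa [t] using h2
      · rw [hfy] at h1
        simp at h1
    · intro x hx x' hx' hxx
      simp only [Finset.coe_map, Function.Embedding.subtype_apply, Set.mem_image,
        Finset.mem_coe] at hx hx'
      obtain ⟨y, hy, rfl⟩ := hx
      obtain ⟨y', hy', rfl⟩ := hx'
      have h1 := (Finset.mem_filter.1 hy).2
      have h1' := (Finset.mem_filter.1 hy').2
      simp only [y.2, y'.2, dite_true, Subtype.coe_eta] at hxx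
      rcases hfy : f y with v | i
      · rcases hfy' : f y' with v' | i'
        · rw [hfy, hfy'] at hxx
          simp only [Sum.elim_inl, id] at hxx
          rw [← hxx, ← hfy] at hfy'
          exact congrArg Subtype.val (hf1 hfy'.symm)
        · rw [hfy'] at h1'
          simp at h1'
      · rw [hfy] at h1
        simp at h1
  have hsub : J.map (Function.Embedding.subtype _) ⊆ S := by
    intro x hx
    simp only [Finset.mem_map, Function.Embedding.subtype_apply] at hx
    obtain ⟨y, -, rfl⟩ := hx
    exact y.2
  have h9 := h _ hsub hHI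
  rw [Finset.card_map] at h9
  omega

/-- cheap subsets -/
theorem cheap {V : Type*} (W : Finset V) (d : V → ℕ) (h : ∑ w ∈ W, d w ≤ 4 * W.card) (q : ℕ)
    (hq : q ≤ W.card) : ∃ Q : Finset V, Q ⊆ W ∧ Q.card = q ∧ ∑ w ∈ Q, d w ≤ 4 * q := by
  classical
  induction W using Finset.strongInduction with
  | H W ih =>
    rcases hq.lt_or_eq with hlt | heq
    · have hne : W.Nonempty := Finset.card_pos.1 (by omega)
      obtain ⟨w, hw, hmax⟩ := Finset.exists_max_image W d hne
      have hc : (W.erase w).card = W.card - 1 := Finset.card_erase_of_mem hw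
      have hs : ∑ x ∈ W.erase w, d x + d w = ∑ x ∈ W, d x := Finset.sum_erase_add W d hw
      have h1 : ∑ x ∈ W.erase w, d x ≤ 4 * (W.erase w).card := by
        by_cases hd : 4 ≤ d w
        · rw [hc]
          omega
        · have h2 : ∑ x ∈ W.erase w, d x ≤ ∑ _x ∈ W.erase w, 4 := by
            apply Finset.sum_le_sum
            intro x hx
            have := hmax x (Finset.mem_of_mem_erase hx)
            omega
          rw [Finset.sum_const, smul_eq_mul, mul_comm] at h2
          exact h2
      obtain ⟨Q, hQ1, hQ2, hQ3⟩ := ih (W.erase w) (Finset.erase_ssubset hw) h1 (by rw [hc]; omega)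
      exact ⟨Q, hQ1.trans (Finset.erase_subset w W), hQ2, hQ3⟩
    · exact ⟨W, Finset.Subset.refl W, heq.symm, by rw [heq]; exact h⟩

private theorem c_card_le {V E : Type*} [DecidableEq V] {e : E → Finset V} {J : Finset E}
    (h : HI e (J : Set E)) : J.card ≤ (J.biUnion e).card := by
  obtain ⟨s, hs1, hs2⟩ := h
  classical
  rw [← Finset.card_image_of_injOn hs2]
  apply Finset.card_le_card
  intro v hv
  obtain ⟨x, hx, rfl⟩ := Finset.mem_image.1 hv
  exact Finset.mem_biUnion.2 ⟨x, hx, hs1 x hx⟩

theorem bic_no {V E : Type*} (e : E → Finset V) (h2 : ∀ y, (e y).card ≤ 2) (S : Finset E)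
    (k t c : ℕ) (hk : 4 * t + 4 ≤ k) (hS : S.card + c = 2 * k)
    (hsmall : ∀ J : Finset E, J ⊆ S → J.card ≤ k → HI e (J : Set E))
    (hbig : ∀ J : Finset E, J ⊆ S → HI e (J : Set E) → J.card + c ≤ k + t) : False := by
  classical
  have hc0 := hbig ∅ (Finset.empty_subset S) (hsmall ∅ (Finset.empty_subset S) (by simp))
  rw [Finset.card_empty] at hc0
  obtain ⟨Y, hYS, hY⟩ := deficiency e S (k + t - c) (fun J hJ hJ' => by
    have := hbig J hJ hJ'
    omega) (by omega)
  have hYc := Finset.card_le_card hYS
  set v := (Y.biUnion e).card with hv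
  have hvY : v + k ≤ Y.card + t := by omega
  -- v is at least k
  have hvk : k ≤ v := by
    by_contra hlt
    obtain ⟨J, hJ1, hJ2⟩ := Finset.exists_subset_card_eq (show v + 1 ≤ Y.card by omega)
    have h3 := c_card_le (hsmall J (hJ1.trans hYS) (by omega))
    have h4 : (J.biUnion e).card ≤ v := Finset.card_le_card (Finset.biUnion_subset_biUnion_of_subset_left e hJ1)
    omega
  -- degrees
  have hdeg : ∑ w ∈ Y.biUnion e, (Y.filter (fun y => w ∈ e y)).card ≤ 2 * Y.card := by
    have h5 : ∑ w ∈ Y.biUnion e, (Y.filter (fun y => w ∈ e y)).card = ∑ y ∈ Y, (e y).card := by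
      simp only [Finset.card_filter]
      rw [Finset.sum_comm]
      refine Finset.sum_congr rfl fun y hy => ?_
      rw [← Finset.card_filter]
      congr 1
      ext w
      simp only [Finset.mem_filter, Finset.mem_biUnion]
      exact ⟨fun h => h.2, fun h => ⟨⟨y, hy, h⟩, h⟩⟩
    rw [h5, mul_comm]
    exact Finset.sum_le_card_nsmul Y _ 2 (fun y _ => h2 y)
  obtain ⟨Q, hQ1, hQ2, hQ3⟩ := cheap (Y.biUnion e) (fun w => (Y.filter (fun y => w ∈ e y)).card)
    (hdeg.trans (by rw [← hv]; omega)) (v - k + 1) (by rw [← hv]; omega)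
  -- delete the edges at Q
  set Y' := Y.filter (fun y => Disjoint (e y) Q) with hY'
  have hdel : Y.card ≤ Y'.card + 4 * (v - k + 1) := by
    have h6 : Y.card = Y'.card + (Y.filter (fun y => ¬ Disjoint (e y) Q)).card := by
      rw [hY', Finset.card_filter_add_card_filter_not]
    have h7 : (Y.filter (fun y => ¬ Disjoint (e y) Q)).card ≤
        ∑ w ∈ Q, (Y.filter (fun y => w ∈ e y)).card := by
      refine (Finset.card_le_card ?_).trans Finset.card_biUnion_le
      intro y hy
      obtain ⟨hy1, hy2⟩ := Finset.mem_filter.1 hy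
      obtain ⟨w, hw1, hw2⟩ := Finset.not_disjoint_iff.1 hy2
      exact Finset.mem_biUnion.2 ⟨w, hw2, Finset.mem_filter.2 ⟨hy1, hw1⟩⟩
    omega
  obtain ⟨J, hJ1, hJ2⟩ := Finset.exists_subset_card_eq (show k ≤ Y'.card by omega)
  have hJY : J ⊆ Y := hJ1.trans (Finset.filter_subset _ _)
  have h8 := c_card_le (hsmall J (hJY.trans hYS) hJ2.le)
  have h9 : J.biUnion e ⊆ (Y.biUnion e) \ Q := by
    intro w hw
    obtain ⟨y, hy, hwy⟩ := Finset.mem_biUnion.1 hw
    have hyd := (Finset.mem_filter.1 (hJ1 hy)).2
    exact Finset.mem_sdiff.2 ⟨Finset.mem_biUnion.2 ⟨y, hJY hy, hwy⟩,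
      fun hwQ => (Finset.disjoint_left.1 hyd) hwy hwQ⟩
  have h10 := Finset.card_le_card h9
  rw [Finset.card_sdiff_of_subset hQ1, hQ2, ← hv] at h10
  omega

end H43V
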