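import Pool.Agent.Lib.H43V.C

/-!
# MP_de3a64_co: no large uniform minor in the bicircular part, `3 t + 4 ≤ k`
-/

set_option autoImplicit false

namespace H43V

open Set

/-- cheap subsets -/
theorem cheap' {V : Type*} (W : Finset V) (d : V → ℕ) :
    ∀ j q : ℕ, q + j = W.card →
      ∃ Q : Finset V, Q ⊆ W ∧ Q.card = q ∧ W.card * ∑ w ∈ Q, d w ≤ q * ∑ w ∈ W, d w := by
  classical
  intro j
  induction j with
  | zero =>
    intro q hq
    refine ⟨W, Finset.Subset.refl _, by omega, ?_⟩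
    rw [show W.card = q by omega]
  | succ j ih =>
    intro q hq
    obtain ⟨Q, hQW, hQ, hs⟩ := ih (q + 1) (by omega)
    have hne : Q.Nonempty := by
      rw [← Finset.card_pos]
      omega
    obtain ⟨w, hw, hmax⟩ := Finset.exists_max_image Q d hne
    refine ⟨Q.erase w, (Finset.erase_subset _ _).trans hQW, ?_, ?_⟩
    · rw [Finset.card_erase_of_mem hw, hQ]
      rfl
    · have h1 : ∑ x ∈ Q.erase w, d x + d w = ∑ x ∈ Q, d x := Finset.sum_erase_add Q d hw
      have h2 : ∑ x ∈ Q, d x ≤ (q + 1) * d w := by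
        have := Finset.sum_le_card_nsmul Q d (d w) hmax
        rwa [smul_eq_mul, hQ] at this
      -- (q+1) * sum erase ≤ q * sum Q
      have h3 : (q + 1) * ∑ x ∈ Q.erase w, d x ≤ q * ∑ x ∈ Q, d x := by
        nlinarith
      have h4 : (q + 1) * (W.card * ∑ x ∈ Q.erase w, d x) ≤ (q + 1) * (q * ∑ x ∈ W, d x) := by
        calc (q + 1) * (W.card * ∑ x ∈ Q.erase w, d x)
            = W.card * ((q + 1) * ∑ x ∈ Q.erase w, d x) := by ring
          _ ≤ W.card * (q * ∑ x ∈ Q, d x) := Nat.mul_le_mul_left _ h3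
          _ = q * (W.card * ∑ x ∈ Q, d x) := by ring
          _ ≤ q * ((q + 1) * ∑ x ∈ W, d x) := Nat.mul_le_mul_left _ hs
          _ = (q + 1) * (q * ∑ x ∈ W, d x) := by ring
      exact Nat.le_of_mul_le_mul_left h4 (by omega)

theorem bic_no' {V E : Type*} (e : E → Finset V) (h2 : ∀ y, (e y).card ≤ 2) (S : Finset E)
    (k t c : ℕ) (hk : 3 * t + 4 ≤ k) (hS : S.card + c = 2 * k)
    (hsmall : ∀ J : Finset E, J ⊆ S → J.card ≤ k → HI e (J : Set E))
    (hbig : ∀ J : Finset E, J ⊆ S → HI e (J : Set E) → J.card + c ≤ k + t) : False := by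
  classical
  -- Hall's condition for small sets
  have hhall : ∀ J : Finset E, J ⊆ S → J.card ≤ k → J.card ≤ (J.biUnion e).card := by
    intro J hJ hJk
    obtain ⟨s, h3, h4⟩ := hsmall J hJ hJk
    rw [← Finset.card_image_of_injOn h4]
    apply Finset.card_le_card
    intro v hv
    obtain ⟨x, hx, rfl⟩ := Finset.mem_image.1 hv
    exact Finset.mem_biUnion.2 ⟨x, hx, h3 x hx⟩
  have hc : c ≤ k + t := by
    have := hbig ∅ (Finset.empty_subset _) (hsmall ∅ (Finset.empty_subset _) (by simp))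
    simpa using this
  obtain ⟨Y, hYS, hY⟩ := deficiency e S (k + t - c) (by
    intro J hJ hJi
    have := hbig J hJ hJi
    omega) (by omega)
  have hYc := Finset.card_le_card hYS
  set v := (Y.biUnion e).card with hv
  have hy1 : v + (k - t) ≤ Y.card := by omega
  have hy2 : Y.card ≤ 2 * k := by omega
  have hvk : k ≤ v := by
    by_contra hcon
    obtain ⟨J, hJ, hJc⟩ := Finset.exists_subset_card_eq (show v + 1 ≤ Y.card by omega)
    have h3 := hhall J (hJ.trans hYS) (by omega)
    have h4 := Finset.card_le_card (Finset.biUnion_subset_biUnion_of_subset_left e hJ)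
    omega
  have hvt : v ≤ k + t := by omega
  -- degrees
  set d : V → ℕ := fun w => (Y.filter (fun y => w ∈ e y)).card with hd
  have hsum : ∑ w ∈ Y.biUnion e, d w ≤ 2 * Y.card := by
    have h3 : ∑ w ∈ Y.biUnion e, (Y.filter (fun y => w ∈ e y)).card =
        ∑ y ∈ Y, ((Y.biUnion e).filter (fun w => w ∈ e y)).card :=
      Finset.sum_card_bipartiteAbove_eq_sum_card_bipartiteBelow (fun w y => w ∈ e y)
    rw [hd, h3]
    have h4 := Finset.sum_le_card_nsmul Y
      (fun y => ((Y.biUnion e).filter (fun w => w ∈ e y)).card) 2 (by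
        intro y _
        refine (Finset.card_le_card ?_).trans (h2 y)
        intro w hw
        exact (Finset.mem_filter.1 hw).2)
    rw [smul_eq_mul] at h4
    omega
  obtain ⟨Q, hQW, hQ, hQs⟩ := cheap' (Y.biUnion e) d (k - 1) (v - (k - 1)) (by omega)
  -- the edges which avoid Q
  set Y' := Y.filter (fun y => Disjoint (e y) Q) with hY'
  have hsplit : Y.card ≤ Y'.card + ∑ w ∈ Q, d w := by
    have h3 : Y ⊆ Y' ∪ Q.biUnion (fun w => Y.filter (fun y => w ∈ e y)) := by
      intro y hy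
      rw [Finset.mem_union]
      by_cases h4 : Disjoint (e y) Q
      · exact Or.inl (Finset.mem_filter.2 ⟨hy, h4⟩)
      · rw [Finset.not_disjoint_iff] at h4
        obtain ⟨w, hw1, hw2⟩ := h4
        exact Or.inr (Finset.mem_biUnion.2 ⟨w, hw2, Finset.mem_filter.2 ⟨hy, hw1⟩⟩)
    exact (Finset.card_le_card h3).trans ((Finset.card_union_le _ _).trans
      (Nat.add_le_add_left Finset.card_biUnion_le _))
  have hN : (Y'.biUnion e).card ≤ k - 1 := by
    have h3 : Y'.biUnion e ⊆ (Y.biUnion e) \ Q := by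
      intro w hw
      obtain ⟨y, hy, hw2⟩ := Finset.mem_biUnion.1 hw
      rw [hY', Finset.mem_filter] at hy
      rw [Finset.mem_sdiff]
      exact ⟨Finset.mem_biUnion.2 ⟨y, hy.1, hw2⟩, Finset.disjoint_left.1 hy.2 hw2⟩
    have h4 := Finset.card_le_card h3
    rw [Finset.card_sdiff_of_subset hQW, hQ] at h4
    omega
  have hlow : Y'.card < k := by
    by_contra hcon
    obtain ⟨J, hJ, hJc⟩ := Finset.exists_subset_card_eq (show k ≤ Y'.card by omega)
    have hJY : J ⊆ Y := hJ.trans (Finset.filter_subset _ _)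
    have h3 := hhall J (hJY.trans hYS) (by omega)
    have h4 := Finset.card_le_card (Finset.biUnion_subset_biUnion_of_subset_left e hJ)
    omega
  -- arithmetic
  rw [← hv] at hQs
  generalize ∑ w ∈ Q, d w = a at hsplit hQs
  generalize ∑ w ∈ Y.biUnion e, d w = b at hsum hQs
  generalize Y'.card = y' at hsplit hlow
  generalize Y.card = y at *
  clear_value v
  clear hQ hQW hN hhall hsmall hbig hYS hYc hY hS hc
  obtain ⟨s, rfl⟩ : ∃ s, v = k - 1 + s := ⟨v - (k - 1), by omega⟩
  obtain ⟨m, rfl⟩ : ∃ m, k = m + 1 := ⟨k - 1, by omega⟩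
  simp only [Nat.add_sub_cancel] at *
  have e1 : m + s - m = s := by omega
  rw [e1] at hQs
  -- y ≤ y' + a, y' ≤ m, (m+s) a ≤ s b, b ≤ 2 y
  -- hence (m + s) (y - m) ≤ 2 s y
  have h5 : (m + s) * y ≤ (m + s) * m + 2 * s * y := by
    have h6 : y ≤ m + a := by omega
    have h7 : (m + s) * y ≤ (m + s) * m + (m + s) * a := by
      rw [← Nat.mul_add]
      exact Nat.mul_le_mul_left _ h6
    have h8 : s * b ≤ 2 * s * y := by
      calc s * b ≤ s * (2 * y) := Nat.mul_le_mul_left _ hsum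
        _ = 2 * s * y := by ring
    omega
  have h6 : s ≤ t + 1 := by omega
  have h7 : m + s + (m + 1 - t) ≤ y := hy1
  have h8 : 3 * t + 3 ≤ m := by omega
  have h9 : 1 ≤ s := by omega
  have g5 : ((m : ℤ) + s) * y ≤ (m + s) * m + 2 * s * y := by exact_mod_cast h5
  have g6 : (s : ℤ) ≤ t + 1 := by exact_mod_cast h6
  have g7 : (2 : ℤ) * m + s + 1 - t ≤ y := by omega
  have g8 : (3 : ℤ) * t + 3 ≤ m := by exact_mod_cast h8
  have g9 : (1 : ℤ) ≤ s := by exact_mod_cast h9
  have gt : (0 : ℤ) ≤ t := Int.natCast_nonneg t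
  have key : ((m : ℤ) - s) * (2 * m + s + 1 - t) - (m + s) * m =
      m * (m - 3 * t - 3) + 2 * (m - t - 1) + (t + 1 - s) * (2 * m + s + 2) := by ring
  have p1 : (0 : ℤ) ≤ m * (m - 3 * t - 3) := mul_nonneg (by linarith) (by linarith)
  have p2 : (0 : ℤ) < 2 * (m - t - 1) := by linarith
  have p3 : (0 : ℤ) ≤ (t + 1 - s) * (2 * m + s + 2) := mul_nonneg (by linarith) (by linarith)
  have p4 : ((m : ℤ) - s) * (2 * m + s + 1 - t) ≤ (m - s) * y :=
    mul_le_mul_of_nonneg_left g7 (by linarith)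
  have p5 : ((m : ℤ) - s) * y ≤ (m + s) * m := by
    have : ((m : ℤ) - s) * y = (m + s) * y - 2 * s * y := by ring
    linarith
  linarith

end H43V
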