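import Pool.Agent.Lib.H43V.C

/-!
# MP_de3a64_co: no large uniform minor in the bicircular part, `t + 11 ≤ k`
-/

set_option autoImplicit false

namespace H43V

open Set

/-- `cc i = ∏ (1 - 1 / (3 (j + 2)))` over `j < i` -/
def cc : ℕ → ℚ
  | 0 => 1
  | i + 1 => (1 - 1 / (3 * ((i : ℚ) + 2))) * cc i

theorem cc_nonneg (i : ℕ) : 0 ≤ cc i := by
  induction i with
  | zero => simp [cc]
  | succ i ih =>
    rw [cc]
    refine mul_nonneg ?_ ih
    rw [sub_nonneg, div_le_one (by positivity)]
    have : (0 : ℚ) ≤ i := Nat.cast_nonneg i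
    linarith

theorem light {V E : Type*} [DecidableEq V] [DecidableEq E] (n : ℕ) :
    ∀ (e : E → Finset V) (ω : E → ℚ) (i : ℕ) (Y : Finset E), Y.card = n →
      (∀ y, (e y).card ≤ 2) → (∀ y, 0 ≤ ω y) → (Y.biUnion e).card + (i + 1) ≤ Y.card →
      ∃ J : Finset E, J ⊆ Y ∧ (J.biUnion e).card < J.card ∧
        ∑ y ∈ J, ω y ≤ cc i * ∑ y ∈ Y, ω y := by
  induction n using Nat.strong_induction_on with
  | _ n ih =>
    intro e ω i Y hn h2 hω hY
    have hsum0 : ∀ Z : Finset E, 0 ≤ ∑ y ∈ Z, ω y := fun Z => Finset.sum_nonneg fun y _ => hω y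
    have hmono : ∀ Z ⊆ Y, ∑ y ∈ Z, ω y ≤ ∑ y ∈ Y, ω y := fun Z hZ =>
      Finset.sum_le_sum_of_subset_of_nonneg hZ fun y _ _ => hω y
    -- deleting an element with the same `i`
    have hdel : ∀ y ∈ Y, ((Y.erase y).biUnion e).card + (i + 1) ≤ (Y.erase y).card →
        ∃ J : Finset E, J ⊆ Y ∧ (J.biUnion e).card < J.card ∧
          ∑ y ∈ J, ω y ≤ cc i * ∑ y ∈ Y, ω y := by
      intro y hy h
      obtain ⟨J, hJ, hJ2, hJ3⟩ := ih (Y.erase y).card (by
        rw [Finset.card_erase_of_mem hy]
        have := Finset.card_pos.2 ⟨y, hy⟩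
        omega) e ω i (Y.erase y) rfl h2 hω h
      exact ⟨J, hJ.trans (Finset.erase_subset _ _), hJ2, hJ3.trans
        (mul_le_mul_of_nonneg_left (hmono _ (Finset.erase_subset _ _)) (cc_nonneg i))⟩
    have hYpos : 0 < Y.card := by omega
    by_cases hstrict : (Y.biUnion e).card + (i + 1) < Y.card
    · obtain ⟨y, hy⟩ := Finset.card_pos.1 hYpos
      refine hdel y hy ?_
      have := Finset.card_le_card (Finset.biUnion_subset_biUnion_of_subset_left e
        (Finset.erase_subset y Y))
      rw [Finset.card_erase_of_mem hy]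
      omega
    have hYeq : (Y.biUnion e).card + (i + 1) = Y.card := by omega
    by_cases h1 : ∃ w ∈ Y.biUnion e, (Y.filter (fun y => w ∈ e y)).card = 1
    · obtain ⟨w, hw, hw1⟩ := h1
      obtain ⟨y, hy⟩ := Finset.card_eq_one.1 hw1
      have hyY : y ∈ Y := by
        have : y ∈ Y.filter (fun y => w ∈ e y) := by
          rw [hy]
          exact Finset.mem_singleton_self y
        exact (Finset.mem_filter.1 this).1
      refine hdel y hyY ?_
      have h3 : (Y.erase y).biUnion e ⊆ (Y.biUnion e).erase w := by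
        intro u hu
        obtain ⟨z, hz, huz⟩ := Finset.mem_biUnion.1 hu
        rw [Finset.mem_erase]
        refine ⟨?_, Finset.mem_biUnion.2 ⟨z, Finset.mem_of_mem_erase hz, huz⟩⟩
        intro huw
        rw [huw] at huz
        have : z ∈ Y.filter (fun y => w ∈ e y) :=
          Finset.mem_filter.2 ⟨Finset.mem_of_mem_erase hz, huz⟩
        rw [hy, Finset.mem_singleton] at this
        exact Finset.ne_of_mem_erase hz this
      have h4 := Finset.card_le_card h3
      rw [Finset.card_erase_of_mem hw] at h4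
      rw [Finset.card_erase_of_mem hyY]
      have := Finset.card_pos.2 ⟨w, hw⟩
      omega
    by_cases h2' : ∃ w ∈ Y.biUnion e, (Y.filter (fun y => w ∈ e y)).card = 2
    · obtain ⟨w, hw, hw2⟩ := h2'
      obtain ⟨y₁, y₂, h12, hy⟩ := Finset.card_eq_two.1 hw2
      have hy₁ : y₁ ∈ Y.filter (fun y => w ∈ e y) := by
        rw [hy]
        simp
      have hy₂ : y₂ ∈ Y.filter (fun y => w ∈ e y) := by
        rw [hy]
        simp
      rw [Finset.mem_filter] at hy₁ hy₂
      have honly : ∀ z ∈ Y, w ∈ e z → z = y₁ ∨ z = y₂ := by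
        intro z hz hwz
        have : z ∈ Y.filter (fun y => w ∈ e y) := Finset.mem_filter.2 ⟨hz, hwz⟩
        rw [hy] at this
        simpa using this
      set e' : E → Finset V := Function.update e y₂ ((e y₁).erase w ∪ (e y₂).erase w) with he'
      set ω' : E → ℚ := Function.update ω y₂ (ω y₁ + ω y₂) with hω'
      have he'2 : e' y₂ = (e y₁).erase w ∪ (e y₂).erase w := by rw [he', Function.update_self]
      have he'n : ∀ z, z ≠ y₂ → e' z = e z := fun z hz => by rw [he', Function.update_of_ne hz]
      have hω'2 : ω' y₂ = ω y₁ + ω y₂ := by rw [hω', Function.update_self]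
      have hω'n : ∀ z, z ≠ y₂ → ω' z = ω z := fun z hz => by rw [hω', Function.update_of_ne hz]
      have hsub : (Y.erase y₁).biUnion e' ⊆ (Y.biUnion e).erase w := by
        intro u hu
        obtain ⟨z, hz, huz⟩ := Finset.mem_biUnion.1 hu
        rw [Finset.mem_erase]
        by_cases hz2 : z = y₂
        · rw [hz2, he'2, Finset.mem_union, Finset.mem_erase, Finset.mem_erase] at huz
          rcases huz with huz | huz
          · exact ⟨huz.1, Finset.mem_biUnion.2 ⟨y₁, hy₁.1, huz.2⟩⟩
          · exact ⟨huz.1, Finset.mem_biUnion.2 ⟨y₂, hy₂.1, huz.2⟩⟩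
        · rw [he'n z hz2] at huz
          refine ⟨?_, Finset.mem_biUnion.2 ⟨z, Finset.mem_of_mem_erase hz, huz⟩⟩
          intro huw
          rw [huw] at huz
          rcases honly z (Finset.mem_of_mem_erase hz) huz with h | h
          · exact Finset.ne_of_mem_erase hz h
          · exact hz2 h
      have hcard : ((Y.erase y₁).biUnion e').card + (i + 1) ≤ (Y.erase y₁).card := by
        have h4 := Finset.card_le_card hsub
        rw [Finset.card_erase_of_mem hw] at h4
        rw [Finset.card_erase_of_mem hy₁.1]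
        have := Finset.card_pos.2 ⟨w, hw⟩
        omega
      obtain ⟨J, hJ, hJ2, hJ3⟩ := ih (Y.erase y₁).card (by
        rw [Finset.card_erase_of_mem hy₁.1]
        omega) e' ω' i (Y.erase y₁) rfl (by
          intro z
          by_cases hz : z = y₂
          · rw [hz, he'2]
            refine (Finset.card_union_le _ _).trans ?_
            rw [Finset.card_erase_of_mem hy₁.2, Finset.card_erase_of_mem hy₂.2]
            have := h2 y₁
            have := h2 y₂
            omega
          · rw [he'n z hz]
            exact h2 z) (by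
          intro z
          by_cases hz : z = y₂
          · rw [hz, hω'2]
            exact add_nonneg (hω _) (hω _)
          · rw [hω'n z hz]
            exact hω z) hcard
      have hy₁J : y₁ ∉ J := fun h => Finset.ne_of_mem_erase (hJ h) rfl
      have hsumY : ∑ y ∈ Y.erase y₁, ω' y = ∑ y ∈ Y, ω y := by
        have hy₂' : y₂ ∈ Y.erase y₁ := Finset.mem_erase.2 ⟨h12.symm, hy₂.1⟩
        rw [← Finset.add_sum_erase _ _ hy₂', hω'2, ← Finset.add_sum_erase _ _ hy₁.1,
          ← Finset.add_sum_erase _ _ hy₂', add_assoc]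
        congr 2
        refine Finset.sum_congr rfl fun z hz => hω'n z (Finset.ne_of_mem_erase hz)
      rw [hsumY] at hJ3
      have hJY : J ⊆ Y := hJ.trans (Finset.erase_subset _ _)
      by_cases hJy : y₂ ∈ J
      · refine ⟨insert y₁ J, Finset.insert_subset hy₁.1 hJY, ?_, ?_⟩
        · have h5 : (insert y₁ J).biUnion e ⊆ insert w (J.biUnion e') := by
            intro u hu
            obtain ⟨z, hz, huz⟩ := Finset.mem_biUnion.1 hu
            rw [Finset.mem_insert]
            by_cases huw : u = w
            · exact Or.inl huw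
            right
            rw [Finset.mem_biUnion]
            rcases Finset.mem_insert.1 hz with hz | hz
            · refine ⟨y₂, hJy, ?_⟩
              rw [he'2, Finset.mem_union, Finset.mem_erase]
              exact Or.inl ⟨huw, hz ▸ huz⟩
            · by_cases hz2 : z = y₂
              · refine ⟨y₂, hJy, ?_⟩
                rw [he'2, Finset.mem_union]
                exact Or.inr (Finset.mem_erase.2 ⟨huw, hz2 ▸ huz⟩)
              · exact ⟨z, hz, by rw [he'n z hz2]; exact huz⟩
          have h6 := (Finset.card_le_card h5).trans (Finset.card_insert_le _ _)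
          rw [Finset.card_insert_of_notMem hy₁J]
          omega
        · rw [Finset.sum_insert hy₁J, ← Finset.add_sum_erase _ _ hJy]
          rw [← Finset.add_sum_erase _ _ hJy, hω'2] at hJ3
          have h7 : ∑ x ∈ J.erase y₂, ω' x = ∑ x ∈ J.erase y₂, ω x :=
            Finset.sum_congr rfl fun z hz => hω'n z (Finset.ne_of_mem_erase hz)
          rw [h7] at hJ3
          linarith
      · refine ⟨J, hJY, ?_, ?_⟩
        · have h5 : J.biUnion e = J.biUnion e' := by
            refine Finset.biUnion_congr rfl fun z hz => ?_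
            rw [he'n z (fun h => hJy (h ▸ hz))]
          rw [h5]
          exact hJ2
        · have h7 : ∑ x ∈ J, ω' x = ∑ x ∈ J, ω x :=
            Finset.sum_congr rfl fun z hz => hω'n z (fun h => hJy (h ▸ hz))
          rw [h7] at hJ3
          exact hJ3
    -- all degrees are at least 3
    have hdeg : ∀ w ∈ Y.biUnion e, 3 ≤ (Y.filter (fun y => w ∈ e y)).card := by
      intro w hw
      have h3 : (Y.filter (fun y => w ∈ e y)).card ≠ 1 := fun h => h1 ⟨w, hw, h⟩
      have h4 : (Y.filter (fun y => w ∈ e y)).card ≠ 2 := fun h => h2' ⟨w, hw, h⟩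
      have h5 : 0 < (Y.filter (fun y => w ∈ e y)).card := by
        obtain ⟨z, hz, hwz⟩ := Finset.mem_biUnion.1 hw
        exact Finset.card_pos.2 ⟨z, Finset.mem_filter.2 ⟨hz, hwz⟩⟩
      omega
    have hY3 : Y.card ≤ 3 * (i + 1) := by
      have h3 : ∑ w ∈ Y.biUnion e, (Y.filter (fun y => w ∈ e y)).card =
          ∑ y ∈ Y, ((Y.biUnion e).filter (fun w => w ∈ e y)).card :=
        Finset.sum_card_bipartiteAbove_eq_sum_card_bipartiteBelow (fun w y => w ∈ e y)
      have h4 := Finset.sum_le_card_nsmul Y
        (fun y => ((Y.biUnion e).filter (fun w => w ∈ e y)).card) 2 (by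
          intro y _
          refine (Finset.card_le_card ?_).trans (h2 y)
          intro w hw
          exact (Finset.mem_filter.1 hw).2)
      have h5 := Finset.card_nsmul_le_sum (Y.biUnion e)
        (fun w => (Y.filter (fun y => w ∈ e y)).card) 3 hdeg
      rw [smul_eq_mul] at h4 h5
      rw [h3] at h5
      omega
    rcases i with _ | i
    · refine ⟨Y, Finset.Subset.refl _, by omega, ?_⟩
      rw [cc, one_mul]
    · obtain ⟨y, hy, hmax⟩ := Finset.exists_max_image Y ω (Finset.card_pos.1 hYpos)
      obtain ⟨J, hJ, hJ2, hJ3⟩ := ih (Y.erase y).card (by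
        rw [Finset.card_erase_of_mem hy]
        omega) e ω i (Y.erase y) rfl h2 hω (by
          have := Finset.card_le_card (Finset.biUnion_subset_biUnion_of_subset_left e
            (Finset.erase_subset y Y))
          rw [Finset.card_erase_of_mem hy]
          omega)
      refine ⟨J, hJ.trans (Finset.erase_subset _ _), hJ2, ?_⟩
      have h3 : ∑ z ∈ Y, ω z ≤ Y.card * ω y := by
        have := Finset.sum_le_card_nsmul Y ω (ω y) hmax
        rwa [nsmul_eq_mul] at this
      have h4 : (Y.card : ℚ) ≤ 3 * ((i : ℚ) + 2) := by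
        have : (Y.card : ℚ) ≤ ((3 * (i + 1 + 1) : ℕ) : ℚ) := by exact_mod_cast hY3
        refine this.trans (le_of_eq ?_)
        push_cast
        ring
      have h5 : ∑ z ∈ Y, ω z ≤ 3 * ((i : ℚ) + 2) * ω y :=
        h3.trans (mul_le_mul_of_nonneg_right h4 (hω y))
      have h6 : (1 / (3 * ((i : ℚ) + 2))) * ∑ z ∈ Y, ω z ≤ ω y := by
        rw [one_div, inv_mul_le_iff₀ (by positivity)]
        exact h5
      have h7 : ∑ z ∈ Y.erase y, ω z = ∑ z ∈ Y, ω z - ω y := by
        rw [← Finset.add_sum_erase _ _ hy]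
        ring
      calc ∑ z ∈ J, ω z ≤ cc i * ∑ z ∈ Y.erase y, ω z := hJ3
        _ ≤ cc i * ((1 - 1 / (3 * ((i : ℚ) + 2))) * ∑ z ∈ Y, ω z) := by
          refine mul_le_mul_of_nonneg_left ?_ (cc_nonneg i)
          rw [h7]
          linarith
        _ = cc (i + 1) * ∑ z ∈ Y, ω z := by
          rw [cc]
          ring

theorem cc_ten : cc 10 < 1 / 2 := by
  simp only [cc]
  norm_num

theorem bic_no3 {V E : Type*} (e : E → Finset V) (h2 : ∀ y, (e y).card ≤ 2) (S : Finset E)
    (k t c : ℕ) (hk : t + 11 ≤ k) (hS : S.card + c = 2 * k)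
    (hsmall : ∀ J : Finset E, J ⊆ S → J.card ≤ k → HI e (J : Set E))
    (hbig : ∀ J : Finset E, J ⊆ S → HI e (J : Set E) → J.card + c ≤ k + t) : False := by
  classical
  have hhall : ∀ J : Finset E, J ⊆ S → J.card ≤ k → J.card ≤ (J.biUnion e).card := by
    intro J hJ hJk
    obtain ⟨s, h3, h4⟩ := hsmall J hJ hJk
    rw [← Finset.card_image_of_injOn h4]
    apply Finset.card_le_card
    intro v hv
    obtain ⟨x, hx, rfl⟩ := Finset.mem_image.1 hv
    exact Finset.mem_biUnion.2 ⟨x, hx, h3 x hx⟩
  have hc : c ≤ k + t := by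
    have := hbig ∅ (Finset.empty_subset _) (hsmall ∅ (Finset.empty_subset _) (by simp))
    simpa using this
  obtain ⟨Y, hYS, hY⟩ := deficiency e S (k + t - c) (by
    intro J hJ hJi
    have := hbig J hJ hJi
    omega) (by omega)
  have hYc := Finset.card_le_card hYS
  obtain ⟨J, hJ, hJ2, hJ3⟩ := light Y.card e (fun _ => 1) 10 Y rfl h2 (fun _ => by norm_num)
    (by omega)
  have h3 : (J.card : ℚ) ≤ cc 10 * Y.card := by simpa using hJ3
  have h4 : (Y.card : ℚ) ≤ 2 * k := by
    have : Y.card ≤ 2 * k := by omega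
    exact_mod_cast this
  have h5 : (J.card : ℚ) ≤ k := by
    have h6 := cc_ten
    have h7 := cc_nonneg 10
    have h8 : (0 : ℚ) ≤ Y.card := Nat.cast_nonneg _
    nlinarith
  have h6 : J.card ≤ k := by exact_mod_cast h5
  have h7 := hhall J (hJ.trans hYS) h6
  omega

end H43V
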