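import Pool.Agent.Lib.H43V.C2

/-!
# MP_de3a64_co: no large uniform minor in the bicircular part, `2 t + 4 ≤ k`
-/

set_option autoImplicit false

namespace H43V

open Set

/-- Delete vertices of smallest degree one after the other. -/
theorem greedy {V E : Type*} [DecidableEq V] (e : E → Finset V) (h2 : ∀ y, (e y).card ≤ 2)
    (Y : Finset E) (m K : ℕ) (h4 : K + 2 ≤ 2 * m) :
    ∀ (j : ℕ) (W : Finset V), W.card = m + j → 2 * K + j + 1 ≤ 3 * m →
      K + 2 * j ≤ (Y.filter (fun y => e y ⊆ W)).card →
      ∃ W' : Finset V, W'.card = m ∧ K ≤ (Y.filter (fun y => e y ⊆ W')).card := by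
  classical
  intro j
  induction j with
  | zero =>
    intro W hW _ h
    exact ⟨W, hW, h⟩
  | succ j ih =>
    intro W hW h3 h
    have hne : W.Nonempty := by
      rw [← Finset.card_pos]
      omega
    obtain ⟨w, hw, hmin⟩ := Finset.exists_min_image W
      (fun w => ((Y.filter (fun y => e y ⊆ W)).filter (fun y => w ∈ e y)).card) hne
    set Z := Y.filter (fun y => e y ⊆ W) with hZ
    set D := (Z.filter (fun y => w ∈ e y)).card with hD
    have hsum1 : W.card * D ≤ ∑ x ∈ W, (Z.filter (fun y => x ∈ e y)).card := by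
      have := Finset.card_nsmul_le_sum W (fun x => (Z.filter (fun y => x ∈ e y)).card) D hmin
      rwa [smul_eq_mul] at this
    have hsum2 : ∑ x ∈ W, (Z.filter (fun y => x ∈ e y)).card ≤ Z.card * 2 := by
      have h5 : ∑ x ∈ W, (Z.filter (fun y => x ∈ e y)).card =
          ∑ y ∈ Z, (W.filter (fun x => x ∈ e y)).card :=
        Finset.sum_card_bipartiteAbove_eq_sum_card_bipartiteBelow (fun x y => x ∈ e y)
      have h6 := Finset.sum_le_card_nsmul Z
        (fun y => (W.filter (fun x => x ∈ e y)).card) 2 (by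
          intro y _
          refine (Finset.card_le_card ?_).trans (h2 y)
          intro x hx
          exact (Finset.mem_filter.1 hx).2)
      rw [smul_eq_mul] at h6
      rw [h5]
      exact h6
    have hsub : Z.filter (fun y => ¬ w ∈ e y) ⊆ Y.filter (fun y => e y ⊆ W.erase w) := by
      intro y hy
      rw [Finset.mem_filter, hZ, Finset.mem_filter] at hy
      rw [Finset.mem_filter]
      refine ⟨hy.1.1, fun x hx => ?_⟩
      rw [Finset.mem_erase]
      exact ⟨fun hxw => hy.2 (hxw ▸ hx), hy.1.2 hx⟩
    have h7 := Finset.card_le_card hsub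
    have h8 := Finset.card_filter_add_card_filter_not (s := Z) (fun y => w ∈ e y)
    refine ih (W.erase w) (by
      rw [Finset.card_erase_of_mem hw]
      omega) (by omega) ?_
    refine le_trans ?_ h7
    have hWD : (m + (j + 1)) * D ≤ Z.card * 2 := by
      rw [← hW]
      exact hsum1.trans hsum2
    rcases Nat.lt_or_ge D 3 with hD3 | hD3
    · omega
    · rcases Nat.lt_or_ge D 4 with hD4 | hD4
      · have hD3' : D = 3 := by omega
        rw [hD3'] at hWD
        omega
      · -- Z.card * 2 - 2 D ≥ (m + j - 1) D ≥ 4 (m + j - 1)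
        obtain ⟨s, hs⟩ : ∃ s, m + j = s + 1 := ⟨m + j - 1, by omega⟩
        have h9 : (m + (j + 1)) * D = s * D + 2 * D := by
          rw [show m + (j + 1) = s + 2 by omega]
          ring
        have h10 : s * 4 ≤ s * D := Nat.mul_le_mul_left _ hD4
        omega

theorem bic_no4 {V E : Type*} (e : E → Finset V) (h2 : ∀ y, (e y).card ≤ 2) (S : Finset E)
    (k t c : ℕ) (hk : 2 * t + 4 ≤ k) (hS : S.card + c = 2 * k)
    (hsmall : ∀ J : Finset E, J ⊆ S → J.card ≤ k → HI e (J : Set E))
    (hbig : ∀ J : Finset E, J ⊆ S → HI e (J : Set E) → J.card + c ≤ k + t) : False := by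
  classical
  rcases Nat.eq_zero_or_pos t with ht | ht
  · exact bic_no' e h2 S k t c (by omega) hS hsmall hbig
  have hhall : ∀ J : Finset E, J ⊆ S → J.card ≤ k → J.card ≤ (J.biUnion e).card := by
    intro J hJ hJk
    obtain ⟨s, h3, h4⟩ := hsmall J hJ hJk
    rw [← Finset.card_image_of_injOn h4]
    apply Finset.card_le_card
    intro v hv
    obtain ⟨x, hx, rfl⟩ := Finset.mem_image.1 hv
    exact Finset.mem_biUnion.2 ⟨x, hx, h3 x hx⟩
  have hc : c ≤ k + t := by
    have := hbig ∅ (Finset.empty_subset _) (hsmall ∅ (Finset.empty_subset _) (by simp))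
    simpa using this
  obtain ⟨Y, hYS, hY⟩ := deficiency e S (k + t - c) (by
    intro J hJ hJi
    have := hbig J hJ hJi
    omega) (by omega)
  have hYc := Finset.card_le_card hYS
  set v := (Y.biUnion e).card with hv
  have hvk : k ≤ v := by
    by_contra hcon
    obtain ⟨J, hJ, hJc⟩ := Finset.exists_subset_card_eq (show v + 1 ≤ Y.card by omega)
    have h3 := hhall J (hJ.trans hYS) (by omega)
    have h4 := Finset.card_le_card (Finset.biUnion_subset_biUnion_of_subset_left e hJ)
    omega
  have hYall : Y.filter (fun y => e y ⊆ Y.biUnion e) = Y :=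
    Finset.filter_true_of_mem fun y hy => Finset.subset_biUnion_of_mem e hy
  obtain ⟨W', hW', hK⟩ := greedy e h2 Y (k - 1) k (by omega) (v - (k - 1)) (Y.biUnion e)
    (by omega) (by omega) (by
      rw [hYall]
      omega)
  obtain ⟨J, hJ, hJc⟩ := Finset.exists_subset_card_eq hK
  have h3 := hhall J (hJ.trans ((Finset.filter_subset _ _).trans hYS)) (by omega)
  have h4 : J.biUnion e ⊆ W' := by
    intro x hx
    obtain ⟨y, hy, hxy⟩ := Finset.mem_biUnion.1 hx
    exact (Finset.mem_filter.1 (hJ hy)).2 hxy
  have h5 := Finset.card_le_card h4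
  omega

end H43V
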