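import Pool.Agent.Lib.H43V.Defs

/-!
# Uniform minors of bicircular matroids (MP_de3a64_co): a bicircular matroid has no `U_{k,2k}`-minor
for `k ≥ 4`
-/

set_option autoImplicit false

namespace H43V

open Set

theorem injOn_update {V E : Type*} [DecidableEq E] {s : E → V} {x : E} {v : V} {J : Set E}
    (h2 : InjOn s J) (hxJ : x ∉ J) (hv : ∀ y ∈ J, s y ≠ v) :
    InjOn (Function.update s x v) (insert x J) := by
  rw [Set.injOn_insert hxJ]
  constructor
  · intro y hy z hz hyz
    have hyx : y ≠ x := fun h => hxJ (h ▸ hy)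
    have hzx : z ≠ x := fun h => hxJ (h ▸ hz)
    rw [Function.update_of_ne hyx, Function.update_of_ne hzx] at hyz
    exact h2 hy hz hyz
  · rintro ⟨y, hy, h⟩
    have hyx : y ≠ x := fun h => hxJ (h ▸ hy)
    rw [Function.update_of_ne hyx, Function.update_self] at h
    exact hv y hy h

theorem HI_insert {V E : Type*} {e : E → Finset V} {s : E → V} {x : E} {v : V} {J : Set E}
    (h1 : ∀ y ∈ J, s y ∈ e y) (h2 : InjOn s J) (hxJ : x ∉ J) (hv : ∀ y ∈ J, s y ≠ v)
    (hvx : v ∈ e x) : HI e (insert x J) := by
  classical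
  refine ⟨Function.update s x v, ?_, injOn_update h2 hxJ hv⟩
  intro y hy
  rcases Set.mem_insert_iff.1 hy with h | h
  · rw [h, Function.update_self]
    exact hvx
  · have hyx : y ≠ x := fun h3 => hxJ (h3 ▸ h)
    rw [Function.update_of_ne hyx]
    exact h1 y h

theorem contract_loop {V E : Type*} [DecidableEq V] {e : E → Finset V} {x : E} {v : V}
    (hx : e x = {v}) (J : Set E) (hxJ : x ∉ J) :
    HI e (insert x J) ↔ HI (fun y => (e y).erase v) J := by
  constructor
  · rintro ⟨s, h1, h2⟩
    have hsx : s x = v := by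
      have := h1 x (mem_insert x J)
      rw [hx] at this
      exact Finset.mem_singleton.1 this
    refine ⟨s, fun y hy => ?_, h2.mono (subset_insert x J)⟩
    rw [Finset.mem_erase]
    refine ⟨fun h => ?_, h1 y (mem_insert_of_mem x hy)⟩
    have : y = x := h2 (mem_insert_of_mem x hy) (mem_insert x J) (h.trans hsx.symm)
    rw [this] at hy
    exact hxJ hy
  · rintro ⟨s, h1, h2⟩
    refine HI_insert (s := s) (v := v) (fun y hy => Finset.mem_of_mem_erase (h1 y hy)) h2 hxJ
      (fun y hy => Finset.ne_of_mem_erase (h1 y hy)) ?_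
    rw [hx]
    exact Finset.mem_singleton_self v

theorem contract_link {V E : Type*} [DecidableEq V] {e : E → Finset V} {x : E} {u v : V}
    (huv : u ≠ v) (hx : e x = {u, v}) (J : Set E) (hxJ : x ∉ J) :
    HI e (insert x J) ↔ HI (fun y => (e y).image (fun w => if w = v then u else w)) J := by
  classical
  constructor
  · rintro ⟨s, h1, h2⟩
    refine ⟨fun y => if s y = v then u else s y, ?_, ?_⟩
    · intro y hy
      exact Finset.mem_image_of_mem (fun w => if w = v then u else w)
        (h1 y (mem_insert_of_mem x hy))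
    · intro y hy z hz hyz
      have hy' := mem_insert_of_mem x hy
      have hz' := mem_insert_of_mem x hz
      have hsx : s x = u ∨ s x = v := by
        have := h1 x (mem_insert x J)
        rw [hx] at this
        simpa using this
      have hyx : s y ≠ s x := fun h => hxJ ((h2 hy' (mem_insert x J) h) ▸ hy)
      have hzx : s z ≠ s x := fun h => hxJ ((h2 hz' (mem_insert x J) h) ▸ hz)
      apply h2 hy' hz'
      dsimp only at hyz
      rcases hsx with h | h
      · rw [h] at hyx hzx
        split_ifs at hyz with h3 h4 h4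
        · rw [h3, h4]
        · exact absurd hyz.symm hzx
        · exact absurd hyz hyx
        · exact hyz
      · rw [h] at hyx hzx
        rw [if_neg hyx, if_neg hzx] at hyz
        exact hyz
  · rintro ⟨s, h1, h2⟩
    have hne : ∀ y ∈ J, s y ≠ v := by
      intro y hy h
      obtain ⟨w, hw, hw2⟩ := Finset.mem_image.1 (h1 y hy)
      rw [h] at hw2
      split_ifs at hw2 with h3
      · exact huv hw2
      · exact h3 hw2
    have hmem : ∀ y ∈ J, s y ≠ u → s y ∈ e y := by
      intro y hy h
      obtain ⟨w, hw, hw2⟩ := Finset.mem_image.1 (h1 y hy)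
      split_ifs at hw2 with h3
      · exact absurd hw2.symm h
      · rw [← hw2]
        exact hw
    by_cases hu : ∃ y0 ∈ J, s y0 = u
    · obtain ⟨y0, hy0, hs0⟩ := hu
      have h3 : ∀ y ∈ J, y ≠ y0 → s y ≠ u := fun y hy hyy h => hyy (h2 hy hy0 (h.trans hs0.symm))
      obtain ⟨w, hw, hw2⟩ := Finset.mem_image.1 (h1 y0 hy0)
      rw [hs0] at hw2
      have hwuv : w = v ∨ w = u := by
        split_ifs at hw2 with h4
        · exact Or.inl h4
        · exact Or.inr hw2
      obtain ⟨w', hw', hww'⟩ : ∃ w', (w' = u ∨ w' = v) ∧ w' ≠ w := by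
        rcases hwuv with h | h
        · exact ⟨u, Or.inl rfl, by rw [h]; exact huv⟩
        · exact ⟨v, Or.inr rfl, by rw [h]; exact huv.symm⟩
      have h5 : ∀ y ∈ J, y ≠ y0 → ∀ t, (t = u ∨ t = v) → s y ≠ t := by
        intro y hy hyy t ht
        rcases ht with h | h
        · rw [h]
          exact h3 y hy hyy
        · rw [h]
          exact hne y hy
      refine HI_insert (s := Function.update s y0 w) (v := w') ?_ ?_ hxJ ?_ ?_
      · intro y hy
        by_cases hyy : y = y0
        · rw [hyy, Function.update_self]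
          exact hw
        · rw [Function.update_of_ne hyy]
          exact hmem y hy (h3 y hy hyy)
      · intro y hy z hz hyz
        by_cases hyy : y = y0
        · by_cases hzz : z = y0
          · rw [hyy, hzz]
          · rw [hyy, Function.update_self, Function.update_of_ne hzz] at hyz
            exact absurd hyz.symm (h5 z hz hzz w hwuv.symm)
        · by_cases hzz : z = y0
          · rw [hzz, Function.update_self, Function.update_of_ne hyy] at hyz
            exact absurd hyz (h5 y hy hyy w hwuv.symm)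
          · rw [Function.update_of_ne hyy, Function.update_of_ne hzz] at hyz
            exact h2 hy hz hyz
      · intro y hy
        by_cases hyy : y = y0
        · rw [hyy, Function.update_self]
          exact hww'.symm
        · rw [Function.update_of_ne hyy]
          exact h5 y hy hyy w' hw'
      · rw [hx]
        rcases hw' with h | h <;> simp [h]
    · push Not at hu
      refine HI_insert (s := s) (v := u) (fun y hy => hmem y hy (hu y hy)) h2 hxJ hu ?_
      rw [hx]
      simp

theorem exists_contract {V E : Type*} {e : E → Finset V} (h2 : ∀ y, (e y).card ≤ 2) {x : E}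
    (hx : HI e {x}) :
    ∃ e1 : E → Finset V, (∀ y, (e1 y).card ≤ 2) ∧
      ∀ J : Set E, x ∉ J → (HI e (insert x J) ↔ HI e1 J) := by
  classical
  obtain ⟨s, h1, -⟩ := hx
  have h3 : 0 < (e x).card := Finset.card_pos.2 ⟨s x, h1 x (mem_singleton x)⟩
  have h4 := h2 x
  have h5 : (e x).card = 1 ∨ (e x).card = 2 := by omega
  rcases h5 with h5 | h5
  · obtain ⟨v, hv⟩ := Finset.card_eq_one.1 h5
    exact ⟨fun y => (e y).erase v, fun y => (Finset.card_erase_le).trans (h2 y),
      fun J hJ => contract_loop hv J hJ⟩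
  · obtain ⟨u, v, huv, hv⟩ := Finset.card_eq_two.1 h5
    exact ⟨fun y => (e y).image (fun w => if w = v then u else w),
      fun y => (Finset.card_image_le).trans (h2 y), fun J hJ => contract_link huv hv J hJ⟩

theorem exists_contract_finset {V E : Type*} [DecidableEq E] (C : Finset E) :
    ∀ e : E → Finset V, (∀ y, (e y).card ≤ 2) → HI e (C : Set E) →
    ∃ e1 : E → Finset V, (∀ y, (e1 y).card ≤ 2) ∧
      ∀ J : Set E, Disjoint J (C : Set E) → (HI e (J ∪ (C : Set E)) ↔ HI e1 J) := by
  induction C using Finset.induction_on with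
  | empty =>
    intro e h2 _
    exact ⟨e, h2, fun J _ => by simp⟩
  | insert x C hxC ih =>
    intro e h2 hC
    rw [Finset.coe_insert] at hC
    obtain ⟨e1, h3, h4⟩ := exists_contract h2 (hC.mono (Set.singleton_subset_iff.2 (mem_insert x _)))
    have hxC' : x ∉ (C : Set E) := by simpa using hxC
    obtain ⟨e2, h5, h6⟩ := ih e1 h3 ((h4 _ hxC').1 hC)
    refine ⟨e2, h5, fun J hJ => ?_⟩
    rw [Finset.coe_insert] at hJ ⊢
    rw [Set.disjoint_insert_right] at hJ
    rw [Set.union_insert, h4 _ (by
      rintro (h | h)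
      · exact hJ.1 h
      · exact hxC' h), h6 J hJ.2]

theorem count {V E : Type*} {e : E → Finset V} (h2 : ∀ y, (e y).card ≤ 2) {S : Finset E} {k : ℕ}
    (hk : 1 ≤ k) (hS : S.card = 2 * k)
    (h : ∀ I : Finset E, I ⊆ S → (HI e (I : Set E) ↔ I.card ≤ k)) : k ≤ 3 := by
  classical
  obtain ⟨T0, hT0, hT0c⟩ := Finset.exists_subset_card_eq (show k ≤ S.card by omega)
  have hT1c : (S \ T0).card = k := by
    rw [Finset.card_sdiff_of_subset hT0]
    omega
  have gen : ∀ T ⊆ S, T.card = k → ∀ s : E → V, (∀ y ∈ (T : Set E), s y ∈ e y) →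
      InjOn s (T : Set E) → ∀ y ∈ S, y ∉ T → e y ⊆ T.image s := by
    intro T hT hTc s h3 h4 y hy hyT v hv
    by_contra hcon
    have h5 : HI e (insert y (T : Set E)) := HI_insert h3 h4 (by simpa using hyT)
      (fun z hz h6 => hcon (Finset.mem_image.2 ⟨z, hz, h6⟩)) hv
    rw [← Finset.coe_insert, h _ (Finset.insert_subset hy hT),
      Finset.card_insert_of_notMem hyT] at h5
    omega
  obtain ⟨s0, h01, h02⟩ := (h T0 hT0).2 hT0c.le
  obtain ⟨s1, h11, h12⟩ := (h (S \ T0) Finset.sdiff_subset).2 hT1c.le
  have hW : (T0.image s0).card = k := by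
    rw [Finset.card_image_of_injOn h02, hT0c]
  have hW1 : ((S \ T0).image s1).card = k := by
    rw [Finset.card_image_of_injOn h12, hT1c]
  have hsub : (S \ T0).image s1 ⊆ T0.image s0 := by
    intro v hv
    obtain ⟨y, hy, rfl⟩ := Finset.mem_image.1 hv
    exact gen T0 hT0 hT0c s0 h01 h02 y (Finset.mem_sdiff.1 hy).1 (Finset.mem_sdiff.1 hy).2
      (h11 y hy)
  have hWW : (S \ T0).image s1 = T0.image s0 := Finset.eq_of_subset_of_card_le hsub (by omega)
  have hall : ∀ y ∈ S, e y ⊆ T0.image s0 := by
    intro y hy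
    by_cases hyT : y ∈ T0
    · rw [← hWW]
      exact gen _ Finset.sdiff_subset hT1c s1 h11 h12 y hy (by simp [hyT])
    · exact gen T0 hT0 hT0c s0 h01 h02 y hy hyT
  clear hsub hWW
  generalize T0.image s0 = W at hW hall
  have hdeg : ∀ w ∈ W, k + 1 ≤ (S.filter (fun y => w ∈ e y)).card := by
    intro w hw
    by_contra hcon
    have h3 : k ≤ (S.filter (fun y => w ∉ e y)).card := by
      have := Finset.card_filter_add_card_filter_not (s := S) (fun y => w ∈ e y)
      omega
    obtain ⟨T, hT, hTc⟩ := Finset.exists_subset_card_eq h3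
    have hTS : T ⊆ S := hT.trans (Finset.filter_subset _ _)
    obtain ⟨s, h4, h5⟩ := (h T hTS).2 hTc.le
    have h6 : (T.image s).card = k := by
      rw [Finset.card_image_of_injOn h5, hTc]
    have h7 : T.image s ⊆ W.erase w := by
      intro v hv
      obtain ⟨y, hy, rfl⟩ := Finset.mem_image.1 hv
      rw [Finset.mem_erase]
      refine ⟨?_, hall y (hTS hy) (h4 y hy)⟩
      intro h8
      have h9 := (Finset.mem_filter.1 (hT hy)).2
      rw [← h8] at h9
      exact h9 (h4 y hy)
    have h8 := Finset.card_le_card h7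
    rw [Finset.card_erase_of_mem hw] at h8
    omega
  have h9 : W.card * (k + 1) ≤ ∑ w ∈ W, (S.filter (fun y => w ∈ e y)).card := by
    have := Finset.card_nsmul_le_sum W (fun w => (S.filter (fun y => w ∈ e y)).card) (k + 1) hdeg
    rwa [smul_eq_mul] at this
  have hsum : ∑ w ∈ W, (S.filter (fun y => w ∈ e y)).card =
      ∑ y ∈ S, (W.filter (fun w => w ∈ e y)).card := by
    exact Finset.sum_card_bipartiteAbove_eq_sum_card_bipartiteBelow (fun w y => w ∈ e y)
  have h10 : ∑ y ∈ S, (W.filter (fun w => w ∈ e y)).card ≤ S.card * 2 := by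
    have := Finset.sum_le_card_nsmul S (fun y => (W.filter (fun w => w ∈ e y)).card) 2 (by
      intro y _
      refine (Finset.card_le_card ?_).trans (h2 y)
      intro w hw
      exact (Finset.mem_filter.1 hw).2)
    rwa [smul_eq_mul] at this
  rw [hsum, hW] at h9
  rw [hS] at h10
  nlinarith

/-- A bicircular matroid has no `U_{k,2k}`-minor for `k ≥ 4`. -/
theorem partB {V E : Type*} [Finite E] (ends : E → Sym2 V) (k : ℕ) (hk : 4 ≤ k) :
    ¬ HasMinor (bicircular ends) (unif k (2 * k)) := by
  classical
  rintro ⟨N, hN, f, hf, hI⟩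
  obtain ⟨C, D, hC, hD, hCD, rfl⟩ := hN.exists_eq_contract_delete_disjoint
  obtain ⟨B, hB⟩ := (bicircular ends).exists_isBasis C hC
  have hBf : B.Finite := Set.toFinite B
  have hBC : B ⊆ C := hB.subset
  have hE : ∀ x, x ∈ (((bicircular ends).contract C).delete D).E ↔ x ∉ C ∧ x ∉ D := by
    intro x
    rw [Matroid.delete_ground, Matroid.contract_ground, bicircular_E]
    simp
  have hind : ∀ J ⊆ (((bicircular ends).contract C).delete D).E,
      ((((bicircular ends).contract C).delete D).Indep J ↔ HI (fun x => (ends x).toFinset) (J ∪ B)) := by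
    intro J hJ
    have h1 : Disjoint J D := Set.disjoint_left.2 fun x hx hx2 => ((hE x).1 (hJ hx)).2 hx2
    have h2 : Disjoint C J := Set.disjoint_left.2 fun x hx hx2 => ((hE x).1 (hJ hx2)).1 hx
    rw [Matroid.delete_indep_iff, hB.contract_indep_iff, bicircular_indep, bicIndep_iff]
    simp [h1, h2]
  have hc2 : ∀ y, ((fun x => (ends x).toFinset) y).card ≤ 2 := by
    intro y
    show (ends y).toFinset.card ≤ 2
    rw [Sym2.card_toFinset]
    split_ifs <;> omega
  have hBI : HI (fun x => (ends x).toFinset) (hBf.toFinset : Set E) := by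
    rw [hBf.coe_toFinset, ← bicIndep_iff, ← bicircular_indep]
    exact hB.indep
  obtain ⟨e1, h1, h2⟩ := exists_contract_finset hBf.toFinset _ hc2 hBI
  rw [hBf.coe_toFinset] at h2
  have hSf : (((bicircular ends).contract C).delete D).E.Finite := Set.toFinite _
  have hScard : hSf.toFinset.card = 2 * k := by
    rw [← Set.ncard_eq_toFinset_card _ hSf, ← hf.injOn.ncard_image, hf.image_eq,
      unif_E, Set.ncard_univ, Nat.card_fin]
  have h3 : k ≤ 3 := by
    refine count (e := e1) (S := hSf.toFinset) h1 (by omega) hScard ?_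
    intro I hIS
    have hIE : (I : Set E) ⊆ (((bicircular ends).contract C).delete D).E := by
      intro x hx
      exact hSf.mem_toFinset.1 (hIS hx)
    have hIB : Disjoint (I : Set E) B :=
      Set.disjoint_left.2 fun x hx hx2 => ((hE x).1 (hIE hx)).1 (hBC hx2)
    rw [← h2 _ hIB, ← hind _ hIE, hI _ hIE, unif_indep, (hf.injOn.mono hIE).ncard_image,
      Set.ncard_coe_finset]
  omega

end H43V
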