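import Pool.Agent.Lib.H43V.Defs2
import Pool.Agent.Lib.H43V.Proof
import Pool.Agent.Lib.H43V.B3
import Pool.Agent.Lib.H43V.C3
import Pool.Agent.Lib.H43V.C4

/-!
# MP_de3a64_co: the truncated direct sum of a bicircular and a cographic matroid
-/

set_option autoImplicit false

namespace H43V

open Set

/-- What a `U_{k,2k}`-minor of a truncation says about the matroid. -/
theorem minor_data {α : Type*} [Finite α] (M : Matroid α) (R t k : ℕ)
    (hR : ∀ I, M.Indep I → I.ncard ≤ R) (h : HasMinor (trunc M (R - t)) (unif k (2 * k))) :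
    ∃ (S : Finset α) (B : Set α), S.card = 2 * k ∧ (∀ x ∈ S, x ∉ B) ∧
      (∀ J : Finset α, J ⊆ S → J.card ≤ k → M.Indep ((J : Set α) ∪ B)) ∧
      (∀ J : Finset α, J ⊆ S → M.Indep ((J : Set α) ∪ B) → J.card ≤ k + t) := by
  classical
  obtain ⟨N, hN, f, hf, hI⟩ := h
  obtain ⟨C, D, hC, hD, hCD, rfl⟩ := hN.exists_eq_contract_delete_disjoint
  obtain ⟨B, hB⟩ := (trunc M (R - t)).exists_isBasis C hC
  have hBC : B ⊆ C := hB.subset
  have hE : ∀ x, x ∈ (((trunc M (R - t)).contract C).delete D).E → x ∉ C ∧ x ∉ D := by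
    intro x
    rw [Matroid.delete_ground, Matroid.contract_ground]
    rintro ⟨⟨_, h1⟩, h2⟩
    exact ⟨h1, h2⟩
  have hind : ∀ J ⊆ (((trunc M (R - t)).contract C).delete D).E,
      ((((trunc M (R - t)).contract C).delete D).Indep J ↔
        M.Indep (J ∪ B) ∧ (J ∪ B).ncard ≤ R - t) := by
    intro J hJ
    have h1 : Disjoint J D := Set.disjoint_left.2 fun x hx hx2 => (hE x (hJ hx)).2 hx2
    have h2 : Disjoint C J := Set.disjoint_left.2 fun x hx hx2 => (hE x (hJ hx2)).1 hx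
    rw [Matroid.delete_indep_iff, hB.contract_indep_iff, trunc_indep]
    simp [h1, h2]
  have hSf : (((trunc M (R - t)).contract C).delete D).E.Finite := Set.toFinite _
  have hScard : hSf.toFinset.card = 2 * k := by
    rw [← Set.ncard_eq_toFinset_card _ hSf, ← hf.injOn.ncard_image, hf.image_eq,
      unif_E, Set.ncard_univ, Nat.card_fin]
  have hsub : ∀ J : Finset α, J ⊆ hSf.toFinset →
      (J : Set α) ⊆ (((trunc M (R - t)).contract C).delete D).E := by
    intro J hJ x hx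
    exact hSf.mem_toFinset.1 (hJ hx)
  have hk : ∀ J : Finset α, J ⊆ hSf.toFinset →
      (M.Indep ((J : Set α) ∪ B) ∧ ((J : Set α) ∪ B).ncard ≤ R - t ↔ J.card ≤ k) := by
    intro J hJ
    have hJE := hsub J hJ
    rw [← hind _ hJE, hI _ hJE, unif_indep, (hf.injOn.mono hJE).ncard_image, Set.ncard_coe_finset]
  have hcard : ∀ J : Finset α, J ⊆ hSf.toFinset → ((J : Set α) ∪ B).ncard = J.card + B.ncard := by
    intro J hJ
    rw [Set.ncard_union_eq ?_ (Set.toFinite _) (Set.toFinite _), Set.ncard_coe_finset]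
    exact Set.disjoint_left.2 fun x hx hx2 => (hE x (hsub J hJ hx)).1 (hBC hx2)
  refine ⟨hSf.toFinset, B, hScard, ?_, ?_, ?_⟩
  · intro x hx hxB
    exact (hE x (hSf.mem_toFinset.1 hx)).1 (hBC hxB)
  · intro J hJ hJk
    exact ((hk J hJ).2 hJk).1
  · intro J hJ hJi
    by_contra hcon
    obtain ⟨J', hJ', hJ'c⟩ := Finset.exists_subset_card_eq (show k + 1 ≤ J.card by omega)
    have h1 : M.Indep ((J' : Set α) ∪ B) :=
      hJi.subset (Set.union_subset_union_left B (by exact_mod_cast hJ'))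
    have h2 := hk J' (hJ'.trans hJ)
    have h3 : ¬ ((J' : Set α) ∪ B).ncard ≤ R - t := by
      intro h4
      have := h2.1 ⟨h1, h4⟩
      omega
    rw [hcard J' (hJ'.trans hJ)] at h3
    have h5 := hR _ hJi
    rw [hcard J hJ] at h5
    omega

theorem sum_indep' {α β : Type*} (M : Matroid α) (N : Matroid β) (I : Set (α ⊕ β)) :
    (M.sum N).Indep I ↔ M.Indep (Sum.inl ⁻¹' I) ∧ N.Indep (Sum.inr ⁻¹' I) :=
  Matroid.sum_indep_iff M N

theorem ncard_sum {α β : Type*} [Finite α] [Finite β] (I : Set (α ⊕ β)) :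
    I.ncard = (Sum.inl ⁻¹' I).ncard + (Sum.inr ⁻¹' I).ncard := by
  conv_lhs => rw [← Set.image_preimage_inl_union_image_preimage_inr I]
  rw [Set.ncard_union_eq ?_ (Set.toFinite _) (Set.toFinite _),
    Set.ncard_image_of_injective _ Sum.inl_injective,
    Set.ncard_image_of_injective _ Sum.inr_injective]
  rw [Set.disjoint_left]
  rintro _ ⟨a, _, rfl⟩ ⟨b, _, hb⟩
  simp at hb

theorem ncard_le_base {α : Type*} [Finite α] {M : Matroid α} {A I : Set α} (hA : M.IsBase A)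
    (hI : M.Indep I) : I.ncard ≤ A.ncard := by
  obtain ⟨B, hB, hIB⟩ := hI.exists_isBase_superset
  rw [← hB.ncard_eq_ncard_of_isBase hA]
  exact Set.ncard_le_ncard hIB (Set.toFinite B)

/-- No `U_{k,2k}`-minor in the truncated direct sum. -/
theorem no_unif {V₁ E₁ V₂ E₂ : Type*} [Finite E₁] [Finite E₂] (ends₁ : E₁ → Sym2 V₁)
    (ends₂ : E₂ → Sym2 V₂) (R t k : ℕ) (hk : 2 * t + 4 ≤ k ∨ t + 11 ≤ k)
    (hR : ∀ I, ((bicircular ends₁).sum (bond ends₂)).Indep I → I.ncard ≤ R) :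
    ¬ HasMinor (trunc ((bicircular ends₁).sum (bond ends₂)) (R - t)) (unif k (2 * k)) := by
  classical
  intro h
  obtain ⟨S, B, hS, hSB, hsmall, hbig⟩ := minor_data _ R t k hR h
  have hSc := Finset.card_toLeft_add_card_toRight (u := S)
  have hpre1 : ∀ (J₁ : Finset E₁) (J₂ : Finset E₂),
      Sum.inl ⁻¹' (((J₁.disjSum J₂ : Finset (E₁ ⊕ E₂)) : Set (E₁ ⊕ E₂)) ∪ B) =
        (J₁ : Set E₁) ∪ Sum.inl ⁻¹' B := by
    intro J₁ J₂
    ext x
    simp
  have hpre2 : ∀ (J₁ : Finset E₁) (J₂ : Finset E₂),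
      Sum.inr ⁻¹' (((J₁.disjSum J₂ : Finset (E₁ ⊕ E₂)) : Set (E₁ ⊕ E₂)) ∪ B) =
        (J₂ : Set E₂) ∪ Sum.inr ⁻¹' B := by
    intro J₁ J₂
    ext x
    simp
  have hJS : ∀ (J₁ : Finset E₁) (J₂ : Finset E₂), J₁ ⊆ S.toLeft → J₂ ⊆ S.toRight →
      J₁.disjSum J₂ ⊆ S := by
    intro J₁ J₂ h1 h2 x hx
    rcases x with x | x
    · exact Finset.mem_toLeft.1 (h1 (by simpa using hx))
    · exact Finset.mem_toRight.1 (h2 (by simpa using hx))
  have hs : ∀ (J₁ : Finset E₁) (J₂ : Finset E₂), J₁ ⊆ S.toLeft → J₂ ⊆ S.toRight →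
      J₁.card + J₂.card ≤ k → (bicircular ends₁).Indep ((J₁ : Set E₁) ∪ Sum.inl ⁻¹' B) ∧
        (bond ends₂).Indep ((J₂ : Set E₂) ∪ Sum.inr ⁻¹' B) := by
    intro J₁ J₂ h1 h2 h3
    have h4 := hsmall _ (hJS J₁ J₂ h1 h2) (by rwa [Finset.card_disjSum])
    rw [sum_indep', hpre1, hpre2] at h4
    exact h4
  have hb : ∀ (J₁ : Finset E₁) (J₂ : Finset E₂), J₁ ⊆ S.toLeft → J₂ ⊆ S.toRight →
      (bicircular ends₁).Indep ((J₁ : Set E₁) ∪ Sum.inl ⁻¹' B) →
      (bond ends₂).Indep ((J₂ : Set E₂) ∪ Sum.inr ⁻¹' B) → J₁.card + J₂.card ≤ k + t := by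
    intro J₁ J₂ h1 h2 h3 h4
    have h5 := hbig _ (hJS J₁ J₂ h1 h2) (by
      rw [sum_indep', hpre1, hpre2]
      exact ⟨h3, h4⟩)
    rwa [Finset.card_disjSum] at h5
  have hB0 := hs ∅ ∅ (Finset.empty_subset _) (Finset.empty_subset _) (by simp)
  simp only [Finset.coe_empty, Set.empty_union] at hB0
  by_cases hc : S.toRight.card ≤ k
  · have hBf : (Sum.inl ⁻¹' B : Set E₁).Finite := Set.toFinite _
    have hc2 : ∀ y, ((fun x => (ends₁ x).toFinset) y).card ≤ 2 := by
      intro y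
      show (ends₁ y).toFinset.card ≤ 2
      rw [Sym2.card_toFinset]
      split_ifs <;> omega
    have hBI : HI (fun x => (ends₁ x).toFinset) (hBf.toFinset : Set E₁) := by
      rw [hBf.coe_toFinset, ← bicIndep_iff, ← bicircular_indep]
      exact hB0.1
    obtain ⟨e1, h1, h2⟩ := exists_contract_finset hBf.toFinset _ hc2 hBI
    rw [hBf.coe_toFinset] at h2
    have hdis : ∀ J₁ : Finset E₁, J₁ ⊆ S.toLeft → Disjoint (J₁ : Set E₁) (Sum.inl ⁻¹' B) := by
      intro J₁ hJ₁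
      rw [Set.disjoint_left]
      intro x hx hx2
      exact hSB _ (Finset.mem_toLeft.1 (hJ₁ hx)) hx2
    have h3 : ∀ J₁ : Finset E₁, J₁ ⊆ S.toLeft →
        (HI e1 (J₁ : Set E₁) ↔ (bicircular ends₁).Indep ((J₁ : Set E₁) ∪ Sum.inl ⁻¹' B)) := by
      intro J₁ hJ₁
      rw [← h2 _ (hdis J₁ hJ₁), bicircular_indep, bicIndep_iff]
    have hs1 : ∀ J : Finset E₁, J ⊆ S.toLeft → J.card ≤ k → HI e1 (J : Set E₁) := by
      intro J hJ hJc
      rw [h3 J hJ]
      exact (hs J ∅ hJ (Finset.empty_subset _) (by simpa using hJc)).1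
    have hb1 : ∀ J : Finset E₁, J ⊆ S.toLeft → HI e1 (J : Set E₁) →
        J.card + S.toRight.card ≤ k + t := by
      intro J hJ hJi
      rw [h3 J hJ] at hJi
      exact hb J S.toRight hJ (Finset.Subset.refl _) hJi
        (hs ∅ S.toRight (Finset.empty_subset _) (Finset.Subset.refl _) (by simpa using hc)).2
    rcases hk with hk | hk
    · exact bic_no4 e1 h1 S.toLeft k t S.toRight.card hk (by omega) hs1 hb1
    · exact bic_no3 e1 h1 S.toLeft k t S.toRight.card hk (by omega) hs1 hb1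
  · refine bond_no ends₂ S.toRight (Sum.inr ⁻¹' B) ?_ k t S.toLeft.card (by omega) (by omega) ?_ ?_
    · intro x hx hx2
      exact hSB _ (Finset.mem_toRight.1 hx) hx2
    · intro J hJ hJc
      rw [← bond_indep]
      exact (hs ∅ J (Finset.empty_subset _) hJ (by simpa using hJc)).2
    · intro J hJ hJi
      rw [← bond_indep] at hJi
      have h1 := hb S.toLeft J (Finset.Subset.refl _) hJ
        (hs S.toLeft ∅ (Finset.Subset.refl _) (Finset.empty_subset _) (by
          have : S.toLeft.card ≤ k := by omega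
          simpa using this)).1 hJi
      omega

end H43V
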