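import Mathlib

/-!
# Uniform minors of bicircular matroids (MP_de3a64_co): definitions

Graphs are finite multigraphs, given by the map `ends` which sends an edge to its pair of ends
(loops and parallel edges are allowed).
-/

set_option autoImplicit false

namespace H43V

open Set

/-- A set `I` of edges is independent in the bicircular matroid when every finite set `J` of edges
of `I` is incident with at least `|J|` vertices.  (For a finite graph this says that every connected
component of the subgraph formed by `I` contains at most one cycle.) -/
def BicIndep {V E : Type*} (ends : E → Sym2 V) (I : Set E) : Prop :=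
  ∀ J : Finset E, (J : Set E) ⊆ I → J.card ≤ {v : V | ∃ x ∈ J, v ∈ ends x}.ncard

/-- `I` has a system of distinct representatives in the family `e`. -/
def HI {V E : Type*} (e : E → Finset V) (I : Set E) : Prop :=
  ∃ s : E → V, (∀ x ∈ I, s x ∈ e x) ∧ InjOn s I

theorem HI.mono {V E : Type*} {e : E → Finset V} {I J : Set E} (h : HI e J) (hIJ : I ⊆ J) : HI e I := by
  obtain ⟨s, h1, h2⟩ := h
  exact ⟨s, fun x hx => h1 x (hIJ hx), h2.mono hIJ⟩

/-- agreement argument: the augmentation axiom -/
theorem HI.aug {V E : Type*} [DecidableEq E] {e : E → Finset V} {I J : Finset E} (hI : HI e (I : Set E))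
    (hJ : HI e (J : Set E)) (hc : I.card < J.card) : ∃ x ∈ J, x ∉ I ∧ HI e (insert x (I : Set E)) := by
  classical
  obtain ⟨t, ht1, ht2⟩ := hJ
  by_contra hcon
  push Not at hcon
  -- number of disagreements
  have key : ∀ n : ℕ, ∀ s : E → V, (∀ x ∈ I, s x ∈ e x) → InjOn s (I : Set E) →
      ((I ∩ J).filter (fun x => s x ≠ t x)).card = n → False := by
    intro n
    induction n using Nat.strong_induction_on with
    | _ n ih =>
      intro s hs1 hs2 hn
      have h1 : (I.image s).card < (J.image t).card := by
        rw [Finset.card_image_of_injOn hs2, Finset.card_image_of_injOn ht2]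
        exact hc
      obtain ⟨v, hv, hv'⟩ := Finset.exists_mem_notMem_of_card_lt_card h1
      obtain ⟨x, hx, rfl⟩ := Finset.mem_image.1 hv
      by_cases hxI : x ∈ I
      · have hne : s x ≠ t x := by
          intro h2
          exact hv' (Finset.mem_image.2 ⟨x, hxI, h2⟩)
        refine ih _ ?_ (Function.update s x (t x)) ?_ ?_ rfl
        · rw [← hn]
          apply Finset.card_lt_card
          rw [Finset.ssubset_iff_of_subset]
          · refine ⟨x, ?_, ?_⟩
            · simp [hxI, hx, hne]
            · simp
          · intro y hy
            simp only [Finset.mem_filter, Finset.mem_inter] at hy ⊢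
            refine ⟨hy.1, ?_⟩
            by_cases hyx : y = x
            · subst hyx
              exact hne
            · rw [Function.update_of_ne hyx] at hy
              exact hy.2
        · intro y hy
          by_cases hyx : y = x
          · subst hyx
            rw [Function.update_self]
            exact ht1 y hx
          · rw [Function.update_of_ne hyx]
            exact hs1 y hy
        · intro y hy z hz hyz
          have hy' : y ∈ I := hy
          have hz' : z ∈ I := hz
          by_cases hyx : y = x
          · by_cases hzx : z = x
            · rw [hyx, hzx]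
            · exfalso
              rw [hyx, Function.update_self, Function.update_of_ne hzx] at hyz
              exact hv' (Finset.mem_image.2 ⟨z, hz', hyz.symm⟩)
          · by_cases hzx : z = x
            · exfalso
              rw [hzx, Function.update_self, Function.update_of_ne hyx] at hyz
              exact hv' (Finset.mem_image.2 ⟨y, hy', hyz⟩)
            · rw [Function.update_of_ne hyx, Function.update_of_ne hzx] at hyz
              exact hs2 hy hz hyz
      · refine hcon x hx hxI ⟨Function.update s x (t x), ?_, ?_⟩
        · intro y hy
          rcases Set.mem_insert_iff.1 hy with hyx | hy2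
          · subst hyx
            rw [Function.update_self]
            exact ht1 y hx
          · have hyx : y ≠ x := by
              intro h
              rw [h] at hy2
              exact hxI hy2
            rw [Function.update_of_ne hyx]
            exact hs1 y hy2
        · intro y hy z hz hyz
          rcases Set.mem_insert_iff.1 hy with hyx | hy2
          · rcases Set.mem_insert_iff.1 hz with hzx | hz2
            · rw [hyx, hzx]
            · exfalso
              have hzx : z ≠ x := by
                intro h
                rw [h] at hz2
                exact hxI hz2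
              rw [hyx, Function.update_self, Function.update_of_ne hzx] at hyz
              exact hv' (Finset.mem_image.2 ⟨z, hz2, hyz.symm⟩)
          · have hyx : y ≠ x := by
              intro h
              rw [h] at hy2
              exact hxI hy2
            rcases Set.mem_insert_iff.1 hz with hzx | hz2
            · exfalso
              rw [hzx, Function.update_self, Function.update_of_ne hyx] at hyz
              exact hv' (Finset.mem_image.2 ⟨y, hy2, hyz⟩)
            · have hzx : z ≠ x := by
                intro h
                rw [h] at hz2
                exact hxI hz2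
              rw [Function.update_of_ne hyx, Function.update_of_ne hzx] at hyz
              exact hs2 hy2 hz2 hyz
  obtain ⟨s, hs1, hs2⟩ := hI
  exact key _ s hs1 hs2 rfl

/-- Hall's theorem: the two descriptions of the independent sets agree. -/
theorem bicIndep_iff {V E : Type*} [DecidableEq V] (ends : E → Sym2 V) (I : Set E) :
    BicIndep ends I ↔ HI (fun x => (ends x).toFinset) I := by
  classical
  have hset : ∀ J : Finset E, {v : V | ∃ x ∈ J, v ∈ ends x}.ncard =
      (J.biUnion (fun x => (ends x).toFinset)).card := by
    intro J
    rw [← Set.ncard_coe_finset]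
    congr 1
    ext v
    simp
  constructor
  · intro h
    have h1 : ∀ s : Finset I, s.card ≤ (s.biUnion (fun x : I => (ends x.1).toFinset)).card := by
      intro s
      have h2 := h (s.map (Function.Embedding.subtype _)) (by
        intro x hx
        simp only [Finset.coe_map, Set.mem_image, Finset.mem_coe] at hx
        obtain ⟨y, -, rfl⟩ := hx
        exact y.2)
      rw [hset, Finset.card_map] at h2
      refine h2.trans (le_of_eq ?_)
      congr 1
      ext v
      simp
    obtain ⟨f, hf1, hf2⟩ := (Finset.all_card_le_biUnion_card_iff_exists_injective _).1 h1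
    by_cases hI : I.Nonempty
    · obtain ⟨x0, hx0⟩ := hI
      refine ⟨fun x => if hx : x ∈ I then f ⟨x, hx⟩ else f ⟨x0, hx0⟩, ?_, ?_⟩
      · intro x hx
        simp only [hx, dite_true]
        exact hf2 ⟨x, hx⟩
      · intro x hx y hy hxy
        simp only [hx, hy, dite_true] at hxy
        exact congrArg Subtype.val (hf1 hxy)
    · rw [Set.not_nonempty_iff_eq_empty] at hI
      subst hI
      by_cases hE : Nonempty E
      · obtain ⟨x0⟩ := hE
        exact ⟨fun x => (ends x).out.1, by simp, by simp [InjOn]⟩
      · refine ⟨fun x => (hE ⟨x⟩).elim, by simp, by simp [InjOn]⟩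
  · rintro ⟨s, hs1, hs2⟩ J hJ
    rw [hset, ← Finset.card_image_of_injOn (hs2.mono hJ)]
    apply Finset.card_le_card
    intro v hv
    obtain ⟨x, hx, rfl⟩ := Finset.mem_image.1 hv
    exact Finset.mem_biUnion.2 ⟨x, hx, hs1 x (hJ hx)⟩

/-- The bicircular matroid of the finite multigraph `ends`; its ground set is the set of all edges. -/
noncomputable def bicircular {V E : Type*} [Finite E] (ends : E → Sym2 V) : Matroid E := by
  classical
  exact (IndepMatroid.ofFinite (E := (univ : Set E)) (Set.toFinite _) (BicIndep ends)
    (by
      intro J hJ
      have : J = ∅ := by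
        rw [← Finset.coe_eq_empty]
        exact Set.subset_empty_iff.1 hJ
      subst this
      simp)
    (fun I J hJ hIJ K hK => hJ K (hK.trans hIJ))
    (by
      intro I J hI hJ hc
      have hIf : I.Finite := Set.toFinite I
      have hJf : J.Finite := Set.toFinite J
      rw [bicIndep_iff] at hI hJ
      rw [← hIf.coe_toFinset] at hI
      rw [← hJf.coe_toFinset] at hJ
      rw [Set.ncard_eq_toFinset_card I hIf, Set.ncard_eq_toFinset_card J hJf] at hc
      obtain ⟨x, hx, hxI, h⟩ := HI.aug hI hJ hc
      refine ⟨x, hJf.mem_toFinset.1 hx, fun h2 => hxI (hIf.mem_toFinset.2 h2), ?_⟩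
      rw [bicIndep_iff]
      rw [hIf.coe_toFinset] at h
      exact h)
    (fun I _ => Set.subset_univ I)).matroid

theorem bicircular_indep {V E : Type*} [Finite E] (ends : E → Sym2 V) (I : Set E) :
    (bicircular ends).Indep I ↔ BicIndep ends I := by
  unfold bicircular
  simp

theorem bicircular_E {V E : Type*} [Finite E] (ends : E → Sym2 V) : (bicircular ends).E = univ := by
  unfold bicircular
  simp

/-- The uniform matroid `U_{k,m}`: rank `k` on the `m` elements `0, ..., m-1`; the independent sets
are the sets with at most `k` elements. -/
noncomputable def unif (k m : ℕ) : Matroid (Fin m) :=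
  (IndepMatroid.ofFinite (E := (univ : Set (Fin m))) (Set.toFinite _) (fun I => I.ncard ≤ k)
    (by simp)
    (fun I J hJ hIJ => (Set.ncard_le_ncard hIJ (Set.toFinite J)).trans hJ)
    (by
      intro I J _ hJ hc
      obtain ⟨x, hx, hxI⟩ := Set.exists_mem_notMem_of_ncard_lt_ncard hc (Set.toFinite I)
      refine ⟨x, hx, hxI, ?_⟩
      show (insert x I).ncard ≤ k
      rw [Set.ncard_insert_of_notMem hxI (Set.toFinite I)]
      have hJ' : J.ncard ≤ k := hJ
      omega)
    (fun I _ => Set.subset_univ I)).matroid

theorem unif_indep (k m : ℕ) (I : Set (Fin m)) : (unif k m).Indep I ↔ I.ncard ≤ k := by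
  unfold unif
  simp

theorem unif_E (k m : ℕ) : (unif k m).E = univ := by
  unfold unif
  simp

/-- The matroids `M` and `N` are isomorphic: some bijection between their ground sets preserves
independence in both directions. -/
def Isom {α β : Type*} (M : Matroid α) (N : Matroid β) : Prop :=
  ∃ f : α → β, BijOn f M.E N.E ∧ ∀ I ⊆ M.E, (M.Indep I ↔ N.Indep (f '' I))

/-- `M` has `N` as a minor: some minor of `M` is isomorphic to `N`. -/
def HasMinor {α β : Type*} (M : Matroid α) (N : Matroid β) : Prop :=
  ∃ M' : Matroid α, M'.IsMinor M ∧ Isom M' N

/-- The graph `G_n^+`: the `n` by `n` grid and one further vertex `none` joined to every vertex of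
the grid. -/
def gridPlus (n : ℕ) : SimpleGraph (Option (Fin n × Fin n)) where
  Adj
    | none, none => False
    | none, some _ => True
    | some _, none => True
    | some a, some b => (a.1 = b.1 ∧ (a.2.1 + 1 = b.2.1 ∨ b.2.1 + 1 = a.2.1)) ∨
        (a.2 = b.2 ∧ (a.1.1 + 1 = b.1.1 ∨ b.1.1 + 1 = a.1.1))
  symm := ⟨by
    rintro (_ | a) (_ | b) h
    · exact h
    · trivial
    · trivial
    · rcases h with ⟨h1, h2⟩ | ⟨h1, h2⟩
      · exact Or.inl ⟨h1.symm, h2.symm⟩
      · exact Or.inr ⟨h1.symm, h2.symm⟩⟩
  loopless := ⟨by
    rintro (_ | a) h
    · exact h
    · rcases h with ⟨_, h2⟩ | ⟨_, h2⟩ <;> omega⟩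

/-- The bicircular matroid `B(G)` of a finite simple graph `G`; the elements are the edges of `G`. -/
noncomputable def bic {V : Type*} [Finite V] (G : SimpleGraph V) : Matroid G.edgeSet :=
  haveI : Finite G.edgeSet := Subtype.finite
  bicircular (fun x : G.edgeSet => x.1)

end H43V
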