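import Pool.Agent.Lib.H43V.A

/-!
# MP_de3a64_co: the bond matroid, interconnected minors, truncation
-/

set_option autoImplicit false

namespace H43V

open Set

/-- A set `I` of edges is independent in the bond matroid `M*(G)` when it contains no nonempty edge
cut.  (The circuits are the bonds, the minimal nonempty edge cuts.) -/
def BondIndep {V E : Type*} (ends : E → Sym2 V) (I : Set E) : Prop :=
  ∀ K : Set V, cutSet ends K ⊆ I → cutSet ends K = ∅

theorem bondIndep_iff {V E : Type*} (ends : E → Sym2 V) (I : Set E) :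
    BondIndep ends I ↔ ∀ A ∈ range (cutSet ends), A ⊆ I → A = ∅ := by
  constructor
  · rintro h _ ⟨K, rfl⟩ hK
    exact h K hK
  · intro h K hK
    exact h _ ⟨K, rfl⟩ hK

theorem range_cutSet {V E : Type*} (ends : E → Sym2 V) :
    ∀ A ∈ range (cutSet ends), ∀ B ∈ range (cutSet ends), symmDiff A B ∈ range (cutSet ends) := by
  rintro _ ⟨K, rfl⟩ _ ⟨L, rfl⟩
  exact ⟨symmDiff K L, cutSet_symmDiff ends K L⟩

/-- The bond matroid `M*(G)` of the finite multigraph `ends` (the dual of the cycle matroid); its
ground set is the set of all edges. -/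
noncomputable def bond {V E : Type*} [Finite E] (ends : E → Sym2 V) : Matroid E :=
  (IndepMatroid.ofFinite (E := (univ : Set E)) (Set.toFinite _) (BondIndep ends)
    (fun _ hK => Set.subset_empty_iff.1 hK)
    (fun _ _ hJ hIJ K hK => hJ K (hK.trans hIJ))
    (by
      intro I J hI hJ hc
      rw [bondIndep_iff] at hI hJ
      obtain ⟨x, hx, hxI, h⟩ := binary_aug _ (range_cutSet ends) hI hJ hc
      exact ⟨x, hx, hxI, (bondIndep_iff ends _).2 h⟩)
    (fun I _ => Set.subset_univ I)).matroid

theorem bond_indep {V E : Type*} [Finite E] (ends : E → Sym2 V) (I : Set E) :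
    (bond ends).Indep I ↔ BondIndep ends I := by
  unfold bond
  simp

theorem bond_E {V E : Type*} [Finite E] (ends : E → Sym2 V) : (bond ends).E = univ := by
  unfold bond
  simp

/-- The bond matroid `M*(G)` of a finite simple graph `G`; the elements are the edges of `G`. -/
noncomputable def cobic {V : Type*} [Finite V] (G : SimpleGraph V) : Matroid G.edgeSet :=
  haveI : Finite G.edgeSet := Subtype.finite
  bond (fun x : G.edgeSet => x.1)

/-- `M` has `A` and `B` as `t`-interconnected minors: there are minors `N₁`, `N₂` of `M` with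
disjoint ground sets, isomorphic to `A` and `B`, such that `r(X) + r(E(M) - X) - r(M) ≥ t` for all
`X` with `E(N₁) ⊆ X ⊆ E(M) - E(N₂)`. -/
def InterMinors {α β γ : Type*} (M : Matroid α) (A : Matroid β) (B : Matroid γ) (t : ℕ) : Prop :=
  ∃ N₁ N₂ : Matroid α, N₁.IsMinor M ∧ N₂.IsMinor M ∧ Isom N₁ A ∧ Isom N₂ B ∧
    Disjoint N₁.E N₂.E ∧
    ∀ X : Set α, N₁.E ⊆ X → X ⊆ M.E \ N₂.E → M.eRank + t ≤ M.eRk X + M.eRk (M.E \ X)

/-- The matroid whose independent sets are the independent sets of `M` with at most `ρ` elements. -/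
noncomputable def trunc {α : Type*} [Finite α] (M : Matroid α) (ρ : ℕ) : Matroid α :=
  (IndepMatroid.ofFinite (E := M.E) (Set.toFinite _) (fun I => M.Indep I ∧ I.ncard ≤ ρ)
    ⟨M.empty_indep, by simp⟩
    (fun _ J hJ hIJ => ⟨hJ.1.subset hIJ, (Set.ncard_le_ncard hIJ (Set.toFinite J)).trans hJ.2⟩)
    (by
      intro I J hI hJ hc
      have hc' : I.encard < J.encard := by
        rw [← (Set.toFinite I).cast_ncard_eq, ← (Set.toFinite J).cast_ncard_eq]
        exact_mod_cast hc
      obtain ⟨x, hx, h⟩ := hI.1.augment hJ.1 hc'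
      refine ⟨x, hx.1, hx.2, h, ?_⟩
      rw [Set.ncard_insert_of_notMem hx.2 (Set.toFinite I)]
      have := hJ.2
      omega)
    (fun _ hI => hI.1.subset_ground)).matroid

theorem trunc_indep {α : Type*} [Finite α] (M : Matroid α) (ρ : ℕ) (I : Set α) :
    (trunc M ρ).Indep I ↔ M.Indep I ∧ I.ncard ≤ ρ := by
  unfold trunc
  simp

theorem trunc_E {α : Type*} [Finite α] (M : Matroid α) (ρ : ℕ) : (trunc M ρ).E = M.E := by
  unfold trunc
  simp

end H43V
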