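import Pool.Agent.Lib.H43V.D

/-!
# MP_de3a64_co: interconnected minors without a `U_{k,2k}`-minor
-/

set_option autoImplicit false

namespace H43V

open Set

theorem isom_of_left {α β : Type*} [Nonempty α] (N : Matroid (α ⊕ β)) (A : Matroid α)
    (hE : N.E = Sum.inl '' A.E) (h : ∀ I ⊆ A.E, (N.Indep (Sum.inl '' I) ↔ A.Indep I)) : Isom N A := by
  classical
  obtain ⟨a0⟩ := ‹Nonempty α›
  refine ⟨Sum.elim id (fun _ => a0), ⟨?_, ?_, ?_⟩, ?_⟩
  · rw [hE]
    rintro _ ⟨a, ha, rfl⟩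
    exact ha
  · rw [hE]
    rintro _ ⟨a, ha, rfl⟩ _ ⟨b, hb, rfl⟩ hab
    simp only [Sum.elim_inl, id_eq] at hab
    rw [hab]
  · intro a ha
    rw [hE]
    exact ⟨Sum.inl a, ⟨a, ha, rfl⟩, rfl⟩
  · intro I hI
    rw [hE] at hI
    obtain ⟨J, hJ, rfl⟩ := Set.subset_image_iff.1 hI
    rw [h J hJ, Set.image_image]
    simp

theorem isom_of_right {α β : Type*} [Nonempty β] (N : Matroid (α ⊕ β)) (A : Matroid β)
    (hE : N.E = Sum.inr '' A.E) (h : ∀ I ⊆ A.E, (N.Indep (Sum.inr '' I) ↔ A.Indep I)) : Isom N A := by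
  classical
  obtain ⟨a0⟩ := ‹Nonempty β›
  refine ⟨Sum.elim (fun _ => a0) id, ⟨?_, ?_, ?_⟩, ?_⟩
  · rw [hE]
    rintro _ ⟨a, ha, rfl⟩
    exact ha
  · rw [hE]
    rintro _ ⟨a, ha, rfl⟩ _ ⟨b, hb, rfl⟩ hab
    simp only [Sum.elim_inr, id_eq] at hab
    rw [hab]
  · intro a ha
    rw [hE]
    exact ⟨Sum.inr a, ⟨a, ha, rfl⟩, rfl⟩
  · intro I hI
    rw [hE] at hI
    obtain ⟨J, hJ, rfl⟩ := Set.subset_image_iff.1 hI
    rw [h J hJ, Set.image_image]
    simp

theorem inter_trunc {E₁ E₂ : Type*} [Finite E₁] [Finite E₂] [Nonempty E₁] [Nonempty E₂]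
    (M₁ : Matroid E₁) (M₂ : Matroid E₂) (h1 : M₁.E = univ) (h2 : M₂.E = univ)
    {A₁ : Set E₁} {A₂ : Set E₂} (hA₁ : M₁.IsBase A₁) (hA₂ : M₂.IsBase A₂) (t : ℕ)
    (ht1 : t ≤ A₁.ncard) (ht2 : t ≤ A₂.ncard) :
    InterMinors (trunc (M₁.sum M₂) (A₁.ncard + A₂.ncard - t)) M₁ M₂ t := by
  classical
  set M := trunc (M₁.sum M₂) (A₁.ncard + A₂.ncard - t) with hM
  have hME : M.E = univ := by
    rw [hM, trunc_E, Matroid.sum_ground, h1, h2]
    simp [Set.range_inl_union_range_inr]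
  have hl : ∀ I : Set E₁, M.Indep (Sum.inl '' I) ↔ M₁.Indep I := by
    intro I
    have e1 : (Sum.inl ⁻¹' (Sum.inl '' I : Set (E₁ ⊕ E₂)) : Set E₁) = I := by
      ext x
      simp
    have e2 : (Sum.inr ⁻¹' (Sum.inl '' I : Set (E₁ ⊕ E₂)) : Set E₂) = ∅ := by
      ext x
      simp
    rw [hM, trunc_indep, sum_indep', e1, e2]
    constructor
    · intro h
      exact h.1.1
    · intro h
      refine ⟨⟨h, M₂.empty_indep⟩, ?_⟩
      rw [Set.ncard_image_of_injective _ Sum.inl_injective]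
      have := ncard_le_base hA₁ h
      omega
  have hr : ∀ I : Set E₂, M.Indep (Sum.inr '' I) ↔ M₂.Indep I := by
    intro I
    have e1 : (Sum.inr ⁻¹' (Sum.inr '' I : Set (E₁ ⊕ E₂)) : Set E₂) = I := by
      ext x
      simp
    have e2 : (Sum.inl ⁻¹' (Sum.inr '' I : Set (E₁ ⊕ E₂)) : Set E₁) = ∅ := by
      ext x
      simp
    rw [hM, trunc_indep, sum_indep', e1, e2]
    constructor
    · intro h
      exact h.1.2
    · intro h
      refine ⟨⟨M₁.empty_indep, h⟩, ?_⟩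
      rw [Set.ncard_image_of_injective _ Sum.inr_injective]
      have := ncard_le_base hA₂ h
      omega
  have hc1 : (univ : Set (E₁ ⊕ E₂)) \ range Sum.inr = range Sum.inl := by
    ext x
    rcases x with x | x <;> simp
  have hc2 : (univ : Set (E₁ ⊕ E₂)) \ range Sum.inl = range Sum.inr := by
    ext x
    rcases x with x | x <;> simp
  have hE1 : (M.delete (range Sum.inr)).E = range Sum.inl := by
    rw [Matroid.delete_ground, hME, hc1]
  have hE2 : (M.delete (range Sum.inl)).E = range Sum.inr := by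
    rw [Matroid.delete_ground, hME, hc2]
  have hdis : Disjoint (range (Sum.inl : E₁ → E₁ ⊕ E₂)) (range (Sum.inr : E₂ → E₁ ⊕ E₂)) := by
    rw [Set.disjoint_left]
    rintro _ ⟨a, rfl⟩ ⟨b, hb⟩
    simp at hb
  refine ⟨M.delete (range Sum.inr), M.delete (range Sum.inl), ⟨∅, _, by rw [Matroid.contract_empty]⟩, ⟨∅, _, by rw [Matroid.contract_empty]⟩, ?_, ?_, ?_, ?_⟩
  · apply isom_of_left
    · rw [hE1, h1, Set.image_univ]
    · intro I _
      rw [Matroid.delete_indep_iff, hl]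
      refine ⟨fun h => h.1, fun h => ⟨h, ?_⟩⟩
      exact hdis.mono_left (Set.image_subset_range _ _)
  · apply isom_of_right
    · rw [hE2, h2, Set.image_univ]
    · intro I _
      rw [Matroid.delete_indep_iff, hr]
      refine ⟨fun h => h.1, fun h => ⟨h, ?_⟩⟩
      exact hdis.symm.mono_left (Set.image_subset_range _ _)
  · rw [hE1, hE2]
    exact hdis
  · intro X hX1 hX2
    rw [hE1] at hX1
    rw [hE2, hME, hc1] at hX2
    have hX : X = range Sum.inl := Set.Subset.antisymm hX2 hX1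
    rw [hX, hME, hc2]
    obtain ⟨Bm, hBm⟩ := M.exists_isBase
    have h3 : M.eRank ≤ ((A₁.ncard + A₂.ncard - t : ℕ) : ℕ∞) := by
      rw [← hBm.encard_eq_eRank, ← (Set.toFinite Bm).cast_ncard_eq]
      have h4 : Bm.ncard ≤ A₁.ncard + A₂.ncard - t := by
        have := hBm.indep
        rw [hM, trunc_indep] at this
        exact this.2
      exact_mod_cast h4
    have h5 : ((A₁.ncard : ℕ) : ℕ∞) ≤ M.eRk (range Sum.inl) := by
      have h6 := ((hl A₁).2 hA₁.indep).encard_le_eRk_of_subset (Set.image_subset_range Sum.inl A₁)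
      rwa [Sum.inl_injective.encard_image, ← (Set.toFinite A₁).cast_ncard_eq] at h6
    have h6 : ((A₂.ncard : ℕ) : ℕ∞) ≤ M.eRk (range Sum.inr) := by
      have h6 := ((hr A₂).2 hA₂.indep).encard_le_eRk_of_subset (Set.image_subset_range Sum.inr A₂)
      rwa [Sum.inr_injective.encard_image, ← (Set.toFinite A₂).cast_ncard_eq] at h6
    calc M.eRank + t ≤ ((A₁.ncard + A₂.ncard - t : ℕ) : ℕ∞) + t := by gcongr
      _ = ((A₁.ncard + A₂.ncard - t + t : ℕ) : ℕ∞) := by push_cast; rfl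
      _ = ((A₁.ncard + A₂.ncard : ℕ) : ℕ∞) := by
        congr 1
        omega
      _ = (A₁.ncard : ℕ∞) + (A₂.ncard : ℕ∞) := by push_cast; rfl
      _ ≤ _ := add_le_add h5 h6

end H43V
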