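import Pool.Agent.Lib.H43V.Proof

/-!
# Uniform minors of bicircular matroids (MP_de3a64_co): the bicircular matroid of `G_2^+` has a
`U_{k,2k}`-minor for `k = 1, 2, 3`
-/

set_option autoImplicit false

namespace H43V

open Set

/-- the eight edges of `G_2^+`; the first two are opposite edges of the 4-cycle -/
def lab : Fin 8 → Sym2 (Option (Fin 2 × Fin 2)) :=
  ![s(some (0, 0), some (0, 1)), s(some (1, 0), some (1, 1)), s(some (0, 0), some (1, 0)),
    s(some (0, 1), some (1, 1)), s(none, some (0, 0)), s(none, some (0, 1)),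
    s(none, some (1, 0)), s(none, some (1, 1))]

/-- the number of ends of a set of labels -/
def nv (J : Finset (Fin 8)) : ℕ :=
  (Finset.univ.filter (fun v : Option (Fin 2 × Fin 2) => ∃ i ∈ J, v ∈ lab i)).card

instance gpDec (n : ℕ) : DecidableRel (gridPlus n).Adj
  | none, none => isFalse (fun h => h)
  | none, some _ => isTrue trivial
  | some _, none => isTrue trivial
  | some a, some b => inferInstanceAs (Decidable ((a.1 = b.1 ∧ (a.2.1 + 1 = b.2.1 ∨ b.2.1 + 1 = a.2.1)) ∨
        (a.2 = b.2 ∧ (a.1.1 + 1 = b.1.1 ∨ b.1.1 + 1 = a.1.1))))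

theorem hall8 : ∀ J : Finset (Fin 8), (insert 0 (insert 1 J)).card ≤ 5 → J.card ≤ nv J := by
  unfold nv
  decide +kernel

theorem lab_inj : Function.Injective lab := by
  have h : ∀ i j : Fin 8, lab i = lab j → i = j := by decide +kernel
  exact fun i j => h i j

theorem lab_adj : ∀ u v : Option (Fin 2 × Fin 2), (gridPlus 2).Adj u v → ∃ i, lab i = s(u, v) := by
  decide +kernel

theorem lab_mem (i : Fin 8) : lab i ∈ (gridPlus 2).edgeSet := by
  have h : ∀ i : Fin 8, lab i ∈ (gridPlus 2).edgeSet := by decide +kernel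
  exact h i

theorem lab_surj (z : (gridPlus 2).edgeSet) : ∃ i, lab i = z.1 := by
  obtain ⟨z, hz⟩ := z
  induction z using Sym2.ind with
  | _ u v => exact lab_adj u v (SimpleGraph.mem_edgeSet _ |>.1 hz)

theorem nv_le (J : Finset (Fin 8)) : nv J ≤ 5 := by
  unfold nv
  refine (Finset.card_le_univ _).trans ?_
  simp

/-- the label of an edge -/
def L : Fin 8 ↪ (gridPlus 2).edgeSet where
  toFun i := ⟨lab i, lab_mem i⟩
  inj' _ _ h := lab_inj (congrArg Subtype.val h)

theorem nv_eq (J : Finset (Fin 8)) :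
    {v : Option (Fin 2 × Fin 2) | ∃ x ∈ J.map L, v ∈ x.1}.ncard = nv J := by
  unfold nv
  rw [← Set.ncard_coe_finset]
  congr 1
  ext v
  simp [L]

theorem indep5 (T : Finset (Fin 8)) (h0 : 0 ∈ T) (h1 : 1 ∈ T) :
    BicIndep (fun x : (gridPlus 2).edgeSet => x.1) (L '' (T : Set (Fin 8))) ↔ T.card ≤ 5 := by
  classical
  constructor
  · intro h
    have h2 := h (T.map L) (by simp)
    rw [nv_eq, Finset.card_map] at h2
    exact h2.trans (nv_le T)
  · intro h J' hJ'
    obtain ⟨J, hJ, rfl⟩ : ∃ J : Finset (Fin 8), J ⊆ T ∧ J' = J.map L := by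
      refine ⟨T.filter (fun i => L i ∈ J'), Finset.filter_subset _ _, ?_⟩
      ext x
      simp only [Finset.mem_map, Finset.mem_filter]
      constructor
      · intro hx
        obtain ⟨i, hi, rfl⟩ := hJ' hx
        exact ⟨i, ⟨hi, hx⟩, rfl⟩
      · rintro ⟨i, ⟨_, hi⟩, rfl⟩
        exact hi
    rw [nv_eq, Finset.card_map]
    apply hall8
    refine (Finset.card_le_card ?_).trans h
    exact Finset.insert_subset h0 (Finset.insert_subset h1 hJ)

theorem isom_of_labels {α : Type*} {N : Matroid α} {k m : ℕ} (hm : 0 < m) (ψ : Fin m → α)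
    (hψ : Function.Injective ψ) (hE : range ψ = N.E)
    (hI : ∀ I : Set (Fin m), N.Indep (ψ '' I) ↔ I.ncard ≤ k) : Isom N (unif k m) := by
  classical
  have : Nonempty (Fin m) := ⟨⟨0, hm⟩⟩
  have hinv : ∀ j, Function.invFun ψ (ψ j) = j := Function.leftInverse_invFun hψ
  refine ⟨Function.invFun ψ, ⟨?_, ?_, ?_⟩, ?_⟩
  · intro a _
    rw [unif_E]
    trivial
  · rw [← hE]
    rintro _ ⟨i, rfl⟩ _ ⟨j, rfl⟩ h
    rw [hinv, hinv] at h
    rw [h]
  · intro j _
    exact ⟨ψ j, by rw [← hE]; exact mem_range_self j, hinv j⟩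
  · intro I hIE
    have h1 : ψ '' (Function.invFun ψ '' I) = I := by
      ext a
      constructor
      · rintro ⟨_, ⟨b, hb, rfl⟩, rfl⟩
        obtain ⟨j, rfl⟩ : b ∈ range ψ := by
          rw [hE]
          exact hIE hb
        rw [hinv]
        exact hb
      · intro ha
        obtain ⟨j, rfl⟩ : a ∈ range ψ := by
          rw [hE]
          exact hIE ha
        exact ⟨j, ⟨ψ j, ha, hinv j⟩, rfl⟩
    rw [unif_indep, ← hI, h1]

theorem unif_of_labels {α : Type*} (M : Matroid α) (g : Fin 8 → α) (hg : Function.Injective g)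
    (hE : range g = M.E)
    (h : ∀ T : Finset (Fin 8), 0 ∈ T → 1 ∈ T → (M.Indep (g '' (T : Set (Fin 8))) ↔ T.card ≤ 5))
    (k : ℕ) (hk1 : 1 ≤ k) (hk3 : k ≤ 3) : HasMinor M (unif k (2 * k)) := by
  classical
  have hCT : ∀ T : Finset (Fin 8), T = Finset.univ.filter (fun i : Fin 8 => i.1 < 5 - k) →
      0 ∈ T ∧ 1 ∈ T ∧ T.card = 5 - k := by
    intro T hT
    subst hT
    interval_cases k
    · decide +kernel
    · decide +kernel
    · decide +kernel
  obtain ⟨hT0, hT1, hTc⟩ := hCT _ rfl
  set T := Finset.univ.filter (fun i : Fin 8 => i.1 < 5 - k) with hT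
  have hC : M.Indep (g '' (T : Set (Fin 8))) := by
    rw [h T hT0 hT1]
    omega
  refine ⟨(M.contract (g '' (T : Set (Fin 8)))).delete (g '' {i : Fin 8 | 5 + k ≤ i.1}), ⟨_, _, rfl⟩, ?_⟩
  have hψm : ∀ j : Fin (2 * k), j.1 + (5 - k) < 8 := by
    intro j
    have := j.2
    omega
  have hψinj : Function.Injective (fun j : Fin (2 * k) => (⟨j.1 + (5 - k), hψm j⟩ : Fin 8)) := by
    intro i j hij
    have := congrArg Fin.val hij
    simp only at this
    ext
    omega
  refine isom_of_labels (by omega) (fun j : Fin (2 * k) => g ⟨j.1 + (5 - k), hψm j⟩) ?_ ?_ ?_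
  · intro i j hij
    exact hψinj (hg hij)
  · rw [Matroid.delete_ground, Matroid.contract_ground, ← hE]
    ext a
    constructor
    · rintro ⟨j, rfl⟩
      refine ⟨⟨mem_range_self _, ?_⟩, ?_⟩
      · rintro ⟨i, hi, hij⟩
        have h2 := congrArg Fin.val (hg hij)
        rw [Finset.mem_coe, hT, Finset.mem_filter] at hi
        simp only at h2
        omega
      · rintro ⟨i, hi, hij⟩
        have h2 := congrArg Fin.val (hg hij)
        have h3 : 5 + k ≤ i.1 := hi
        have h4 := j.2
        simp only at h2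
        omega
    · rintro ⟨⟨⟨i, rfl⟩, h2⟩, h3⟩
      have h4 : ¬ i.1 < 5 - k := by
        intro h5
        apply h2
        refine ⟨i, ?_, rfl⟩
        rw [Finset.mem_coe, hT, Finset.mem_filter]
        exact ⟨Finset.mem_univ i, h5⟩
      have h5 : ¬ 5 + k ≤ i.1 := fun h6 => h3 ⟨i, h6, rfl⟩
      refine ⟨⟨i.1 - (5 - k), by omega⟩, ?_⟩
      show g _ = g i
      congr 1
      ext
      show i.1 - (5 - k) + (5 - k) = i.1
      omega
  · intro I
    have hIf : I.Finite := Set.toFinite I
    have hd1 : Disjoint ((fun j : Fin (2 * k) => g ⟨j.1 + (5 - k), hψm j⟩) '' I)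
        (g '' {i : Fin 8 | 5 + k ≤ i.1}) := by
      rw [Set.disjoint_left]
      rintro _ ⟨j, _, rfl⟩ ⟨i, hi, hij⟩
      have h2 := congrArg Fin.val (hg hij)
      have h3 : 5 + k ≤ i.1 := hi
      have h4 := j.2
      simp only at h2
      omega
    have hd2 : Disjoint ((fun j : Fin (2 * k) => g ⟨j.1 + (5 - k), hψm j⟩) '' I)
        (g '' (T : Set (Fin 8))) := by
      rw [Set.disjoint_left]
      rintro _ ⟨j, _, rfl⟩ ⟨i, hi, hij⟩
      have h2 := congrArg Fin.val (hg hij)
      rw [Finset.mem_coe, hT, Finset.mem_filter] at hi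
      simp only at h2
      omega
    rw [Matroid.delete_indep_iff, hC.contract_indep_iff]
    have hun : ((fun j : Fin (2 * k) => g ⟨j.1 + (5 - k), hψm j⟩) '' I) ∪ (g '' (T : Set (Fin 8))) =
        g '' ((hIf.toFinset.map ⟨_, hψinj⟩ ∪ T : Finset (Fin 8)) : Set (Fin 8)) := by
      rw [Finset.coe_union, Set.image_union, Finset.coe_map, hIf.coe_toFinset, Set.image_image]
      rfl
    have hdis : Disjoint (hIf.toFinset.map ⟨_, hψinj⟩) T := by
      rw [Finset.disjoint_left]
      intro i hi hi2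
      obtain ⟨j, _, rfl⟩ := Finset.mem_map.1 hi
      rw [hT, Finset.mem_filter] at hi2
      have h3 : j.1 + (5 - k) < 5 - k := hi2.2
      omega
    rw [hun, h _ (Finset.mem_union_right _ hT0) (Finset.mem_union_right _ hT1),
      Finset.card_union_of_disjoint hdis, Finset.card_map, hTc, ← Set.ncard_eq_toFinset_card I hIf]
    constructor
    · rintro ⟨⟨_, h3⟩, _⟩
      omega
    · intro h3
      exact ⟨⟨hd2, by omega⟩, hd1⟩

/-- Every matroid with a minor isomorphic to the bicircular matroid of `G_2^+` has a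
`U_{k,2k}`-minor for `k = 1, 2, 3`. -/
theorem partA {α : Type*} (M : Matroid α) (k : ℕ) (hk1 : 1 ≤ k) (hk3 : k ≤ 3)
    (h : HasMinor M (bic (gridPlus 2))) : HasMinor M (unif k (2 * k)) := by
  classical
  obtain ⟨M', hM', f, hf, hI⟩ := h
  have hE : (bic (gridPlus 2)).E = univ := by
    have : Finite (gridPlus 2).edgeSet := Subtype.finite
    exact bicircular_E _
  have hbi : ∀ I : Set (gridPlus 2).edgeSet, (bic (gridPlus 2)).Indep I ↔
      BicIndep (fun x : (gridPlus 2).edgeSet => x.1) I := by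
    intro I
    have : Finite (gridPlus 2).edgeSet := Subtype.finite
    exact bicircular_indep _ I
  have hsurj : ∀ i : Fin 8, ∃ a ∈ M'.E, f a = L i := by
    intro i
    have : L i ∈ (bic (gridPlus 2)).E := by
      rw [hE]
      trivial
    exact hf.surjOn this
  choose g hgE hg using hsurj
  have hginj : Function.Injective g := by
    intro i j hij
    apply L.injective
    rw [← hg i, ← hg j, hij]
  have hrange : range g = M'.E := by
    ext a
    constructor
    · rintro ⟨i, rfl⟩
      exact hgE i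
    · intro ha
      obtain ⟨i, hi⟩ := lab_surj (f a)
      refine ⟨i, hf.injOn (hgE i) ha ?_⟩
      rw [hg i]
      exact Subtype.ext hi
  obtain ⟨N, hN, hN2⟩ := unif_of_labels M' g hginj hrange (by
    intro T h0 h1
    have h2 : g '' (T : Set (Fin 8)) ⊆ M'.E := by
      rintro _ ⟨i, _, rfl⟩
      exact hgE i
    rw [hI _ h2, hbi, ← indep5 T h0 h1, Set.image_image]
    simp only [hg]) k hk1 hk3
  exact ⟨N, hN.trans hM', hN2⟩

end H43V
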