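import Pool.Agent.Lib.H43V.F
import Pool.Agent.Lib.H43V.PartA

/-!
# MP_de3a64_co: the graphs `G_n^+`
-/

set_option autoImplicit false

namespace H43V

open Set

/-- the spokes at the first column of the grid -/
def spoke (n : ℕ) (i : Fin n) : (gridPlus n).edgeSet :=
  ⟨s(none, some (i, i)), by
    rw [SimpleGraph.mem_edgeSet]
    trivial⟩

theorem spoke_inj (n : ℕ) : Function.Injective (spoke n) := by
  intro i j h
  have h1 : s((none : Option (Fin n × Fin n)), some (i, i)) = s(none, some (j, j)) :=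
    congrArg Subtype.val h
  simpa using h1

theorem spoke_indep (n : ℕ) : (bic (gridPlus n)).Indep (range (spoke n)) := by
  classical
  have : Finite (gridPlus n).edgeSet := Subtype.finite
  show (bicircular (fun x : (gridPlus n).edgeSet => x.1)).Indep (range (spoke n))
  rw [bicircular_indep, bicIndep_iff]
  have hex : ∀ x : (gridPlus n).edgeSet, ∃ v, v ∈ x.1 := by
    rintro ⟨x, hx⟩
    induction x using Sym2.ind with
    | _ u v => exact ⟨u, Sym2.mem_mk_left u v⟩
  choose g0 hg0 using hex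
  by_cases hn : Nonempty (Fin n)
  · refine ⟨fun x => some (Function.invFun (spoke n) x, Function.invFun (spoke n) x), ?_, ?_⟩
    · rintro _ ⟨i, rfl⟩
      simp only [Function.leftInverse_invFun (spoke_inj n) i]
      simp [spoke]
    · rintro _ ⟨i, rfl⟩ _ ⟨j, rfl⟩ hij
      simp only [Function.leftInverse_invFun (spoke_inj n) i,
        Function.leftInverse_invFun (spoke_inj n) j, Option.some.injEq, Prod.mk.injEq] at hij
      rw [hij.1]
  · refine ⟨g0, ?_, ?_⟩
    · rintro _ ⟨i, rfl⟩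
      exact (hn ⟨i⟩).elim
    · rintro _ ⟨i, rfl⟩
      exact (hn ⟨i⟩).elim

theorem spoke_card (n : ℕ) : (range (spoke n)).ncard = n := by
  rw [← Set.image_univ, Set.ncard_image_of_injective _ (spoke_inj n), Set.ncard_univ, Nat.card_fin]

/-- the edges between the first two rows of the grid -/
def rung (n : ℕ) (hn : 2 ≤ n) (i : Fin n) : (gridPlus n).edgeSet :=
  ⟨s(some (i, ⟨0, by omega⟩), some (i, ⟨1, by omega⟩)), by
    rw [SimpleGraph.mem_edgeSet]
    exact Or.inl ⟨rfl, Or.inl rfl⟩⟩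

theorem rung_inj (n : ℕ) (hn : 2 ≤ n) : Function.Injective (rung n hn) := by
  intro i j h
  have h1 : s(some (i, (⟨0, by omega⟩ : Fin n)), some (i, (⟨1, by omega⟩ : Fin n))) =
      s(some (j, (⟨0, by omega⟩ : Fin n)), some (j, (⟨1, by omega⟩ : Fin n))) :=
    congrArg Subtype.val h
  rw [Sym2.eq_iff] at h1
  rcases h1 with ⟨h1, _⟩ | ⟨h1, _⟩
  · simpa using h1
  · simp at h1

theorem rung_indep (n : ℕ) (hn : 2 ≤ n) : (cobic (gridPlus n)).Indep (range (rung n hn)) := by
  classical
  have : Finite (gridPlus n).edgeSet := Subtype.finite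
  show (bond (fun x : (gridPlus n).edgeSet => x.1)).Indep (range (rung n hn))
  rw [bond_indep]
  intro K hK
  have hsp : ∀ a : Fin n × Fin n, (none ∈ K ↔ some a ∈ K) := by
    intro a
    by_contra hcon
    have h1 : (⟨s(none, some a), by
        rw [SimpleGraph.mem_edgeSet]
        trivial⟩ : (gridPlus n).edgeSet) ∈ cutSet (fun x : (gridPlus n).edgeSet => x.1) K := by
      by_cases h2 : none ∈ K
      · have h3 : some a ∉ K := fun h => hcon ⟨fun _ => h, fun _ => h2⟩
        exact ⟨⟨none, by simp, h2⟩, ⟨some a, by simp, h3⟩⟩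
      · have h3 : some a ∈ K := by
          by_contra h
          exact hcon ⟨fun h4 => (h2 h4).elim, fun h4 => (h h4).elim⟩
        exact ⟨⟨some a, by simp, h3⟩, ⟨none, by simp, h2⟩⟩
    obtain ⟨i, hi⟩ := hK h1
    have h4 : s(some (i, (⟨0, by omega⟩ : Fin n)), some (i, (⟨1, by omega⟩ : Fin n))) =
      s(none, some a) := congrArg Subtype.val hi
    rw [Sym2.eq_iff] at h4
    rcases h4 with ⟨h4, _⟩ | ⟨_, h4⟩
    · simp at h4
    · simp at h4
  have hall : ∀ v : Option (Fin n × Fin n), (v ∈ K ↔ none ∈ K) := by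
    rintro (_ | a)
    · rfl
    · exact (hsp a).symm
  rw [Set.eq_empty_iff_forall_notMem]
  rintro x ⟨⟨u, _, hu⟩, ⟨v, _, hv⟩⟩
  exact hv ((hall v).2 ((hall u).1 hu))

theorem rung_card (n : ℕ) (hn : 2 ≤ n) : (range (rung n hn)).ncard = n := by
  rw [← Set.image_univ, Set.ncard_image_of_injective _ (rung_inj n hn), Set.ncard_univ,
    Nat.card_fin]

/-- For `n ≥ 2`, `t ≤ n` some finite matroid has `B(G_n^+)` and `M*(G_n^+)` as `t`-interconnected
minors and no `U_{k,2k}`-minor, if `k ≥ 2 t + 4` or `k ≥ t + 11`. -/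
theorem partC (n t k : ℕ) (hn : 2 ≤ n) (ht : t ≤ n) (hk : 2 * t + 4 ≤ k ∨ t + 11 ≤ k) :
    ∃ (α : Type) (M : Matroid α), M.Finite ∧
      InterMinors M (bic (gridPlus n)) (cobic (gridPlus n)) t ∧ ¬ HasMinor M (unif k (2 * k)) := by
  classical
  have : Finite (gridPlus n).edgeSet := Subtype.finite
  have hne : Nonempty (gridPlus n).edgeSet := ⟨spoke n ⟨0, by omega⟩⟩
  obtain ⟨A₁, hA₁⟩ := (bic (gridPlus n)).exists_isBase
  obtain ⟨A₂, hA₂⟩ := (cobic (gridPlus n)).exists_isBase
  have h1 : t ≤ A₁.ncard := by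
    have := ncard_le_base hA₁ (spoke_indep n)
    rw [spoke_card] at this
    omega
  have h2 : t ≤ A₂.ncard := by
    have := ncard_le_base hA₂ (rung_indep n hn)
    rw [rung_card] at this
    omega
  refine ⟨_, trunc ((bic (gridPlus n)).sum (cobic (gridPlus n))) (A₁.ncard + A₂.ncard - t), ?_,
    inter_trunc _ _ (bicircular_E _) (bond_E _) hA₁ hA₂ t h1 h2, ?_⟩
  · exact ⟨Set.toFinite _⟩
  · refine no_unif _ _ _ t k hk ?_
    intro I hI
    rw [sum_indep'] at hI
    rw [ncard_sum]
    exact add_le_add (ncard_le_base hA₁ hI.1) (ncard_le_base hA₂ hI.2)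

end H43V
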