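import Pool.Agent.Lib.H43V.G

/-!
# MP_de3a64_co: the case `n = 1`
-/

set_option autoImplicit false

namespace H43V

open Set

theorem InterMinors.mono {α β γ : Type*} {M : Matroid α} {A : Matroid β} {B : Matroid γ} {t t' : ℕ}
    (h : InterMinors M A B t') (ht : t ≤ t') : InterMinors M A B t := by
  obtain ⟨N₁, N₂, h1, h2, h3, h4, h5, h6⟩ := h
  refine ⟨N₁, N₂, h1, h2, h3, h4, h5, fun X hX1 hX2 => ?_⟩
  refine le_trans ?_ (h6 X hX1 hX2)
  gcongr

theorem edge_one (x : (gridPlus 1).edgeSet) : x = spoke 1 0 := by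
  obtain ⟨x, hx⟩ := x
  apply Subtype.ext
  induction x using Sym2.ind with
  | _ u v =>
    rw [SimpleGraph.mem_edgeSet] at hx
    show s(u, v) = s(none, some (0, 0))
    rcases u with _ | ⟨a, b⟩
    · rcases v with _ | ⟨c, d⟩
      · exact hx.elim
      · rw [Subsingleton.elim c 0, Subsingleton.elim d 0]
    · rcases v with _ | ⟨c, d⟩
      · rw [Subsingleton.elim a 0, Subsingleton.elim b 0, Sym2.eq_swap]
      · exfalso
        have := a.2
        have := b.2
        have := c.2
        have := d.2
        rcases hx with ⟨_, h⟩ | ⟨_, h⟩ <;> simp only at h <;> omega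

theorem no_unif_small (k : ℕ) (hk : 2 ≤ k) : ¬ HasMinor (unif 1 2) (unif k (2 * k)) := by
  rintro ⟨N, hN, f, hf, -⟩
  have h1 : (unif k (2 * k)).E.ncard ≤ 2 := by
    rw [← hf.image_eq]
    refine (Set.ncard_image_le (Set.toFinite _)).trans ?_
    refine (Set.ncard_le_ncard (Set.subset_univ N.E) (Set.toFinite _)).trans ?_
    rw [Set.ncard_univ, Nat.card_fin]
  rw [unif_E, Set.ncard_univ, Nat.card_fin] at h1
  omega

theorem inter_one : InterMinors (unif 1 2) (bic (gridPlus 1)) (cobic (gridPlus 1)) 1 := by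
  classical
  have : Finite (gridPlus 1).edgeSet := Subtype.finite
  have hind1 : ∀ I, (bic (gridPlus 1)).Indep I := by
    intro I
    refine (spoke_indep 1).subset fun x _ => ?_
    exact ⟨0, (edge_one x).symm⟩
  have hind2 : ∀ I, (cobic (gridPlus 1)).Indep I → I = ∅ := by
    intro I hI
    by_contra hne
    obtain ⟨x, hx⟩ := Set.nonempty_iff_ne_empty.2 hne
    have h1 : BondIndep (fun x : (gridPlus 1).edgeSet => x.1) I :=
      (bond_indep (fun x : (gridPlus 1).edgeSet => x.1) I).1 hI
    have h2 := h1 {none} (fun y _ => by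
      rw [edge_one y, ← edge_one x]
      exact hx)
    have h3 : spoke 1 0 ∈ cutSet (fun x : (gridPlus 1).edgeSet => x.1) {none} :=
      ⟨⟨none, by simp [spoke], rfl⟩, ⟨some (0, 0), by simp [spoke], by simp⟩⟩
    rw [h2] at h3
    exact h3
  have hdel : ((unif 1 2).delete {1}).E = {0} := by
    rw [Matroid.delete_ground, unif_E]
    ext x
    fin_cases x <;> simp
  have hcon : ((unif 1 2).contract {0}).E = {1} := by
    rw [Matroid.contract_ground, unif_E]
    ext x
    fin_cases x <;> simp
  have hi0 : (unif 1 2).Indep {0} := by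
    rw [unif_indep, Set.ncard_singleton]
  have hi1 : (unif 1 2).Indep {1} := by
    rw [unif_indep, Set.ncard_singleton]
  refine ⟨(unif 1 2).delete {1}, (unif 1 2).contract {0}, ⟨∅, _, by rw [Matroid.contract_empty]⟩,
    ⟨_, ∅, by rw [Matroid.delete_empty]⟩, ⟨fun _ => spoke 1 0, ⟨?_, ?_, ?_⟩, ?_⟩,
    ⟨fun _ => spoke 1 0, ⟨?_, ?_, ?_⟩, ?_⟩, ?_, ?_⟩
  · intro x _
    show spoke 1 0 ∈ (bicircular (fun x : (gridPlus 1).edgeSet => x.1)).E
    rw [bicircular_E]
    trivial
  · rw [hdel]
    rintro x hx y hy -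
    rw [hx, hy]
  · intro x _
    refine ⟨0, by rw [hdel]; rfl, (edge_one x).symm⟩
  · intro I hI
    rw [hdel] at hI
    refine ⟨fun _ => hind1 _, fun _ => ?_⟩
    rw [Matroid.delete_indep_iff]
    refine ⟨hi0.subset hI, ?_⟩
    rw [Set.disjoint_left]
    intro x hx hx2
    have h1 := hI hx
    rw [Set.mem_singleton_iff] at h1 hx2
    rw [h1] at hx2
    exact absurd hx2 (by decide)
  · intro x _
    show spoke 1 0 ∈ (bond (fun x : (gridPlus 1).edgeSet => x.1)).E
    rw [bond_E]
    trivial
  · rw [hcon]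
    rintro x hx y hy -
    rw [hx, hy]
  · intro x _
    refine ⟨1, by rw [hcon]; rfl, (edge_one x).symm⟩
  · intro I hI
    rw [hcon] at hI
    constructor
    · intro h
      rcases I.eq_empty_or_nonempty with h1 | ⟨x, hx⟩
      · rw [h1, Set.image_empty]
        exact Matroid.empty_indep _
      · exfalso
        have hx1 := hI hx
        rw [Set.mem_singleton_iff] at hx1
        rw [hx1] at hx
        rw [hi0.contract_indep_iff] at h
        have h2 := h.2
        rw [unif_indep] at h2
        have h3 : ({1, 0} : Set (Fin 2)) ⊆ I ∪ {0} := by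
          intro y hy
          rcases hy with hy | hy
          · rw [hy]
            exact Or.inl hx
          · exact Or.inr hy
        have h4 := Set.ncard_le_ncard h3 (Set.toFinite _)
        rw [Set.ncard_pair (by decide)] at h4
        omega
    · intro h
      have h1 := hind2 _ h
      rw [Set.image_eq_empty] at h1
      rw [h1]
      exact Matroid.empty_indep _
  · rw [hdel, hcon]
    simp
  · intro X hX1 hX2
    rw [hdel] at hX1
    rw [hcon, unif_E] at hX2
    have hX : X = {0} := by
      refine Set.Subset.antisymm (fun x hx => ?_) hX1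
      have h1 := (hX2 hx).2
      fin_cases x
      · rfl
      · exact absurd rfl h1
    have hXc : (univ : Set (Fin 2)) \ {0} = {1} := by
      ext x
      fin_cases x <;> simp
    rw [hX, unif_E, hXc]
    have h1 : (unif 1 2).eRank ≤ 1 := by
      obtain ⟨B, hB⟩ := (unif 1 2).exists_isBase
      rw [← hB.encard_eq_eRank, ← (Set.toFinite B).cast_ncard_eq]
      have := (unif_indep 1 2 B).1 hB.indep
      exact_mod_cast this
    have h2 : 1 ≤ (unif 1 2).eRk {0} := by
      have := hi0.encard_le_eRk_of_subset (Set.Subset.refl _)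
      rwa [Set.encard_singleton] at this
    have h3 : 1 ≤ (unif 1 2).eRk {1} := by
      have := hi1.encard_le_eRk_of_subset (Set.Subset.refl _)
      rwa [Set.encard_singleton] at this
    exact add_le_add (h1.trans h2) (by exact_mod_cast h3)

/-- For `n ≥ 1`, `t ≤ n` and `k ≥ 2 t + 4` or `k ≥ t + 11` some finite matroid has `B(G_n^+)` and `M*(G_n^+)` as
`t`-interconnected minors and no `U_{k,2k}`-minor. -/
theorem partC' (n t k : ℕ) (hn : 1 ≤ n) (ht : t ≤ n) (hk : 2 * t + 4 ≤ k ∨ t + 11 ≤ k) :
    ∃ (α : Type) (M : Matroid α), M.Finite ∧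
      InterMinors M (bic (gridPlus n)) (cobic (gridPlus n)) t ∧ ¬ HasMinor M (unif k (2 * k)) := by
  rcases Nat.lt_or_ge 1 n with h | h
  · exact partC n t k h ht hk
  · obtain rfl : n = 1 := by omega
    exact ⟨_, unif 1 2, ⟨Set.toFinite _⟩, inter_one.mono ht, no_unif_small k (by omega)⟩

end H43V
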